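import Pool.Agent.Y300.LC.Stm

/-! Project LC, job LC-CLS (helper769): the relation in one residue class. -/

set_option autoImplicit false

open PowerSeries Finset

namespace Pool.Agent.Y300.LC

lemma cls_rel (hs : S_SOL) (hr : S_REL) (N : ℕ) (p q : ℂ) (hN : 2 ≤ N) :
    Rel N p q (sol N p q) := by
  refine hr ℂ N p q _ hN ?_
  obtain ⟨F, hF, -⟩ := hs ℂ N p q hN
  exact Classical.epsilon_spec (p := IsSol N p q) ⟨F, hF⟩

lemma cls_zero (L m : ℕ) (hL : 1 ≤ L) (β : ℕ → ℂ)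
    (h1 : ∀ k : ℕ, ((m : ℂ) - k) * β k = k * β (k + L)) (h5 : ∀ k, m < k → β k = 0) :
    ∀ n k : ℕ, m + 1 - k ≤ n → ¬ m ≡ k [MOD L] → β k = 0 := by
  intro n
  induction n with
  | zero => intro k hk _; exact h5 k (by omega)
  | succ n ih =>
    intro k hk hmod
    by_cases hlt : m < k
    · exact h5 k hlt
    · have hne : m ≠ k := by
        rintro rfl; exact hmod (Nat.ModEq.refl _)
      have h2 : β (k + L) = 0 := by
        apply ih (k + L) (by omega)
        intro h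
        apply hmod
        have : k + L ≡ k [MOD L] := by simp [Nat.ModEq]
        exact h.trans this
      have h3 := h1 k
      rw [h2, mul_zero] at h3
      rcases mul_eq_zero.1 h3 with h | h
      · exfalso
        apply hne
        have h4 : (m : ℂ) = k := by linear_combination h
        exact_mod_cast h4
      · exact h

lemma cls_nz (L m : ℕ) (hL : 1 ≤ L) (β : ℕ → ℂ)
    (h1 : ∀ k : ℕ, ((m : ℂ) - k) * β k = k * β (k + L)) (h6 : β m = 1) :
    ∀ n k : ℕ, m + 1 - k ≤ n → 1 ≤ k → k ≤ m → m ≡ k [MOD L] → β k ≠ 0 := by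
  intro n
  induction n with
  | zero => intro k hk _ hkm _; omega
  | succ n ih =>
    intro k hk hk1 hkm hmod
    by_cases he : k = m
    · subst he; rw [h6]; exact one_ne_zero
    · have hlt : k < m := by omega
      have hdvd : L ∣ m - k := (Nat.modEq_iff_dvd' hkm).1 hmod.symm
      have hge : L ≤ m - k := Nat.le_of_dvd (by omega) hdvd
      have h2 : β (k + L) ≠ 0 := by
        apply ih (k + L) (by omega) (by omega) (by omega)
        have : k + L ≡ k [MOD L] := by simp [Nat.ModEq]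
        exact hmod.trans this.symm
      intro h0
      have h3 := h1 k
      rw [h0, mul_zero] at h3
      have hk0 : (k : ℂ) ≠ 0 := by
        have : k ≠ 0 := by omega
        exact_mod_cast this
      exact (mul_ne_zero hk0 h2) h3.symm

lemma cls_val (L m : ℕ) (hL : 1 ≤ L) (β : ℕ → ℂ)
    (h1 : ∀ k : ℕ, ((m : ℂ) - k) * β k = k * β (k + L)) (h5 : ∀ k, m < k → β k = 0)
    (r : ℕ) (hr1 : 1 ≤ r) (hrL : r ≤ L) (hmr : m ≡ r [MOD L]) (k : ℕ) (hk1 : 1 ≤ k)
    (hkL : k ≤ L) : β k = if k = r then β r else 0 := by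
  by_cases h : k = r
  · rw [if_pos h, h]
  · rw [if_neg h]
    apply cls_zero L m hL β h1 h5 _ k le_rfl
    intro h2
    apply h
    have h3 : k ≡ r [MOD L] := h2.symm.trans hmr
    rcases lt_or_gt_of_ne h with h4 | h4
    · have h5 := (Nat.modEq_iff_dvd' h4.le).1 h3
      have h6 := Nat.le_of_dvd (by omega) h5
      omega
    · have h5 := (Nat.modEq_iff_dvd' h4.le).1 h3.symm
      have h6 := Nat.le_of_dvd (by omega) h5
      omega

lemma cls_sum (I : Finset (ℕ × ℕ)) (l : ℕ → ℕ → ℂ) (a b : ℕ) (P : Prop) [Decidable P]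
    (c W : ℂ) :
    ∑ x ∈ I, l x.1 x.2 * (W * (if x.1 = a ∧ x.2 = b ∧ P then c else 0)) =
      W * (if (a, b) ∈ I ∧ P then l a b * c else 0) := by
  by_cases hI : (a, b) ∈ I
  · rw [Finset.sum_eq_single_of_mem (a, b) hI]
    · by_cases hP : P
      · simp [hI, hP]; ring
      · simp [hI, hP]
    · intro x _ hx
      rw [if_neg]
      · simp
      · rintro ⟨h1, h2, -⟩
        exact hx (Prod.ext h1 h2)
  · rw [if_neg (fun h => hI h.1), mul_zero]
    apply Finset.sum_eq_zero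
    intro x hx
    rw [if_neg]
    · simp
    · rintro ⟨h1, h2, -⟩
      apply hI
      rw [← h1, ← h2]
      exact hx

lemma cls_memIf (N a b : ℕ) : (a, b) ∈ If N ↔
    a + b ≤ N + 1 ∧ ((1 ≤ b ∧ ¬ (a = N ∧ b = 1)) ∨ (a = 1 ∧ b = 0)) := by
  simp only [If, J, Finset.mem_filter, Finset.mem_product, Finset.mem_range, ne_eq, Prod.mk.injEq]
  omega

lemma cls_memIg (N a b : ℕ) : (a, b) ∈ Ig N ↔
    a + b ≤ N + 1 ∧ 1 ≤ b ∧ ¬ (a = N - 1 ∧ b = 1) := by
  simp only [Ig, J, Finset.mem_filter, Finset.mem_product, Finset.mem_range, ne_eq, Prod.mk.injEq]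
  omega

/-- values for `(p, q) = (0, 1)` -/
lemma cls_vals0 (hs : S_SOL) (hr : S_REL) (N r m : ℕ) (hN : 6 ≤ N) (hr1 : 1 ≤ r) (hrN : r ≤ N)
    (hm : 4 * N < m) (hmr : m ≡ r [MOD N]) (U Z : ℂ) (hU : U = (m : ℂ) - N)
    (hZ : Z = (m : ℂ) + 1) (hU0 : U ≠ 0) (hZ0 : Z ≠ 0) :
    B N 0 1 r m ≠ 0 ∧
    (∀ k, 1 ≤ k → k ≤ N → B N 0 1 k m = if k = r then B N 0 1 r m else 0) ∧
    (B N 0 1 (N + 1) m = if r = 1 then ((m : ℂ) - 1) * B N 0 1 r m else 0) ∧
    (A N 0 1 1 m = 0) ∧
    (∀ j, 2 ≤ j → j ≤ N + 1 → A N 0 1 j m =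
      if j = r + 1 then -((N : ℂ) - r) / U * B N 0 1 r m else 0) ∧
    (A N 0 1 0 m = if r = N - 1 then (N + 1) / (Z * U) * B N 0 1 r m else 0) := by
  have R := cls_rel hs hr N 0 1 (by omega)
  have b1 : ∀ k : ℕ, ((m : ℂ) - k) * B N 0 1 k m = k * B N 0 1 (k + N) m := by
    intro k
    have h := R.r1 k m
    simp only [B]
    rw [h]; ring
  have b5 : ∀ k, m < k → B N 0 1 k m = 0 := fun k hk => R.r5 k m hk
  have b6 : B N 0 1 m m = 1 := R.r6 m
  have b0 : B N 0 1 0 m = 0 := by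
    have h := R.r7 m
    rw [if_neg (by omega)] at h
    exact h
  have a1 : ∀ j : ℕ, U * A N 0 1 (j + 1) m = ((j : ℂ) - N) * B N 0 1 j m := by
    intro j
    have h2 := R.r2 j m
    have h3 := R.r3 j m
    simp only [A, B]
    rw [hU]
    linear_combination h3 - ((N : ℂ) + 1) * h2
  have a0 : Z * A N 0 1 0 m = -((N : ℂ) + 1) * A N 0 1 N m := by
    have h4 := R.r4 m
    simp only [A]
    rw [hZ]
    linear_combination h4
  have val := cls_val N m (by omega) (fun k => B N 0 1 k m) b1 b5 r hr1 hrN hmr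
  have valA : ∀ j, 2 ≤ j → j ≤ N + 1 → A N 0 1 j m =
      if j = r + 1 then -((N : ℂ) - r) / U * B N 0 1 r m else 0 := by
    intro j hj2 hjN
    obtain ⟨i, rfl⟩ : ∃ i, j = i + 1 := ⟨j - 1, by omega⟩
    have h := a1 i
    have h2 := val i (by omega) (by omega)
    by_cases hi : i = r
    · subst hi
      rw [if_pos rfl]
      have : A N 0 1 (i + 1) m = (((i : ℂ) - N) * B N 0 1 i m) / U := by
        rw [← h]; field_simp
      rw [this]; ring
    · rw [if_neg (by omega)]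
      rw [if_neg hi] at h2
      rw [h2, mul_zero] at h
      exact (mul_eq_zero.1 h).resolve_left hU0
  refine ⟨cls_nz N m (by omega) (fun k => B N 0 1 k m) b1 b6 _ r le_rfl hr1 (by omega) hmr,
    val, ?_, ?_, valA, ?_⟩
  · have h := b1 1
    have h2 := val 1 le_rfl (by omega)
    rw [add_comm 1 N, Nat.cast_one, one_mul] at h
    rw [← h, h2]
    by_cases h1 : r = 1
    · rw [if_pos h1.symm, if_pos h1]
    · rw [if_neg (fun h => h1 h.symm), if_neg h1, mul_zero]
  · have h := a1 0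
    rw [b0, mul_zero, zero_add] at h
    exact (mul_eq_zero.1 h).resolve_left hU0
  · have h := valA N (by omega) (by omega)
    by_cases h1 : r = N - 1
    · rw [if_pos h1]
      rw [if_pos (by omega)] at h
      have hrc : (r : ℂ) = N - 1 := by
        rw [h1, Nat.cast_sub (by omega)]; simp
      have : A N 0 1 0 m = (-((N : ℂ) + 1) * A N 0 1 N m) / Z := by
        rw [← a0]; field_simp
      rw [this, h, hrc]
      field_simp
      ring
    · rw [if_neg h1]
      rw [if_neg (by omega)] at h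
      rw [h, mul_zero] at a0
      exact (mul_eq_zero.1 a0).resolve_left hZ0

/-- values for `(p, q) = (1, 0)` -/
lemma cls_vals1 (hs : S_SOL) (hr : S_REL) (N s m : ℕ) (hN : 6 ≤ N) (hs1 : 1 ≤ s)
    (hsN : s ≤ N - 1) (hm : 4 * N < m) (hms : m ≡ s [MOD (N - 1)]) (U V Z : ℂ)
    (hU : U = (m : ℂ) - N)
    (hV : V = (m : ℂ) - N + 1) (hZ : Z = (m : ℂ) + 1) (hV0 : V ≠ 0) (hZ0 : Z ≠ 0) :
    B N 1 0 s m ≠ 0 ∧
    (∀ k, 1 ≤ k → k ≤ N - 1 → B N 1 0 k m = if k = s then B N 1 0 s m else 0) ∧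
    (B N 1 0 N m = if s = 1 then ((m : ℂ) - 1) * B N 1 0 s m else 0) ∧
    (B N 1 0 (N + 1) m = if s = 2 then ((m : ℂ) - 2) / 2 * B N 1 0 s m else 0) ∧
    (B N 1 0 (2 * N + 1) m =
      if s = 3 then ((m : ℂ) - 3) * ((m : ℂ) - 2 - N) / (3 * (N + 2)) * B N 1 0 s m else 0) ∧
    B N 1 0 0 m = 0 ∧
    (A N 1 0 1 m = 0) ∧
    (∀ j, 2 ≤ j → j ≤ N → A N 1 0 j m =
      if j = s + 1 then -((N : ℂ) - 1 - s) / V * B N 1 0 s m else 0) ∧
    (A N 1 0 0 m = if s = N - 2 then N / (Z * V) * B N 1 0 s m else 0) ∧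
    (A N 1 0 (N + 1) m = if s = 1 then ((m : ℂ) - 1) / V * B N 1 0 s m else 0) ∧
    (A N 1 0 (2 * N) m = if s = 1 then ((m : ℂ) - 1) * U / V * B N 1 0 s m else 0) := by
  have R := cls_rel hs hr N 1 0 (by omega)
  have b1 : ∀ k : ℕ, ((m : ℂ) - k) * B N 1 0 k m = k * B N 1 0 (k + (N - 1)) m := by
    intro k
    have h := R.r1 k m
    have e : k + N - 1 = k + (N - 1) := by omega
    simp only [B]
    rw [h, e]; ring
  have b5 : ∀ k, m < k → B N 1 0 k m = 0 := fun k hk => R.r5 k m hk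
  have b6 : B N 1 0 m m = 1 := R.r6 m
  have b0 : B N 1 0 0 m = 0 := by
    have h := R.r7 m
    rw [if_neg (by omega)] at h
    exact h
  have a1 : ∀ j : ℕ, V * A N 1 0 (j + 1) m = ((j : ℂ) + 1 - N) * B N 1 0 j m := by
    intro j
    have h2 := R.r2 j m
    have h3 := R.r3 j m
    simp only [A, B]
    rw [hV]
    linear_combination h3 - (N : ℂ) * h2
  have a0 : Z * A N 1 0 0 m = -(N : ℂ) * A N 1 0 (N - 1) m := by
    have h4 := R.r4 m
    simp only [A]
    rw [hZ]
    linear_combination h4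
  have hNC : (N : ℂ) ≠ 0 := by
    have : N ≠ 0 := by omega
    exact_mod_cast this
  have hN2C : (N : ℂ) + 2 ≠ 0 := by
    have : N + 2 ≠ 0 := by omega
    exact_mod_cast this
  have val := cls_val (N - 1) m (by omega) (fun k => B N 1 0 k m) b1 b5 s hs1 hsN hms
  have vN : B N 1 0 N m = if s = 1 then ((m : ℂ) - 1) * B N 1 0 s m else 0 := by
    have h := b1 1
    have h2 := val 1 le_rfl (by omega)
    rw [show 1 + (N - 1) = N by omega, Nat.cast_one, one_mul] at h
    rw [← h, h2]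
    by_cases h1 : s = 1
    · rw [if_pos h1.symm, if_pos h1]
    · rw [if_neg (fun h => h1 h.symm), if_neg h1, mul_zero]
  have vN1 : B N 1 0 (N + 1) m = if s = 2 then ((m : ℂ) - 2) / 2 * B N 1 0 s m else 0 := by
    have h := b1 2
    have h2 := val 2 (by omega) (by omega)
    rw [show 2 + (N - 1) = N + 1 by omega] at h
    push_cast at h
    have h3 : B N 1 0 (N + 1) m = ((m : ℂ) - 2) / 2 * B N 1 0 2 m := by
      linear_combination -(1/2 : ℂ) * h
    rw [h3, h2]
    by_cases h1 : s = 2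
    · rw [if_pos h1.symm, if_pos h1]
    · rw [if_neg (fun h => h1 h.symm), if_neg h1, mul_zero]
  have v2N1 : B N 1 0 (2 * N + 1) m =
      if s = 3 then ((m : ℂ) - 3) * ((m : ℂ) - 2 - N) / (3 * (N + 2)) * B N 1 0 s m else 0 := by
    have h := b1 3
    have h2 := val 3 (by omega) (by omega)
    rw [show 3 + (N - 1) = N + 2 by omega] at h
    have h' := b1 (N + 2)
    rw [show N + 2 + (N - 1) = 2 * N + 1 by omega] at h'
    push_cast at h h'
    have h3 : B N 1 0 (2 * N + 1) m =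
        ((m : ℂ) - 3) * ((m : ℂ) - 2 - N) / (3 * (N + 2)) * B N 1 0 3 m := by
      field_simp
      linear_combination -((m : ℂ) - 2 - N) * h - 3 * h'
    rw [h3, h2]
    by_cases h1 : s = 3
    · rw [if_pos h1.symm, if_pos h1]
    · rw [if_neg (fun h => h1 h.symm), if_neg h1, mul_zero]
  have v2Nm : B N 1 0 (2 * N - 1) m =
      if s = 1 then ((m : ℂ) - N) * ((m : ℂ) - 1) / N * B N 1 0 s m else 0 := by
    have h := b1 N
    rw [show N + (N - 1) = 2 * N - 1 by omega, vN] at h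
    by_cases h1 : s = 1
    · rw [if_pos h1] at h ⊢
      field_simp
      linear_combination -h
    · rw [if_neg h1] at h ⊢
      rw [mul_zero] at h
      exact (mul_eq_zero.1 h.symm).resolve_left hNC
  have valA : ∀ j, 2 ≤ j → j ≤ N → A N 1 0 j m =
      if j = s + 1 then -((N : ℂ) - 1 - s) / V * B N 1 0 s m else 0 := by
    intro j hj2 hjN
    obtain ⟨i, rfl⟩ : ∃ i, j = i + 1 := ⟨j - 1, by omega⟩
    have h := a1 i
    have h2 := val i (by omega) (by omega)
    by_cases hi : i = s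
    · subst hi
      rw [if_pos rfl]
      have : A N 1 0 (i + 1) m = (((i : ℂ) + 1 - N) * B N 1 0 i m) / V := by
        rw [← h]; field_simp
      rw [this]; ring
    · rw [if_neg (by omega)]
      rw [if_neg hi] at h2
      rw [h2, mul_zero] at h
      exact (mul_eq_zero.1 h).resolve_left hV0
  refine ⟨cls_nz (N - 1) m (by omega) (fun k => B N 1 0 k m) b1 b6 _ s le_rfl hs1 (by omega) hms,
    val, vN, vN1, v2N1, b0, ?_, valA, ?_, ?_, ?_⟩
  · have h := a1 0
    rw [b0, mul_zero, zero_add] at h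
    exact (mul_eq_zero.1 h).resolve_left hV0
  · have h := valA (N - 1) (by omega) (by omega)
    by_cases h1 : s = N - 2
    · rw [if_pos h1]
      rw [if_pos (by omega)] at h
      have hrc : (s : ℂ) = N - 2 := by
        rw [h1, Nat.cast_sub (by omega)]; simp
      have : A N 1 0 0 m = (-(N : ℂ) * A N 1 0 (N - 1) m) / Z := by
        rw [← a0]; field_simp
      rw [this, h, hrc]
      field_simp
      ring
    · rw [if_neg h1]
      rw [if_neg (by omega)] at h
      rw [h, mul_zero] at a0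
      exact (mul_eq_zero.1 a0).resolve_left hZ0
  · have h := a1 N
    rw [vN] at h
    by_cases h1 : s = 1
    · rw [if_pos h1] at h ⊢
      field_simp
      linear_combination h
    · rw [if_neg h1] at h ⊢
      rw [mul_zero] at h
      exact (mul_eq_zero.1 h).resolve_left hV0
  · have h := a1 (2 * N - 1)
    rw [v2Nm, show 2 * N - 1 + 1 = 2 * N by omega, Nat.cast_sub (by omega)] at h
    push_cast at h
    by_cases h1 : s = 1
    · rw [if_pos h1] at h ⊢
      have h3 : V * A N 1 0 (2 * N) m = (m - 1) * U * B N 1 0 s m := by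
        rw [h, hU]; field_simp; ring
      field_simp
      linear_combination h3
    · rw [if_neg h1] at h ⊢
      rw [mul_zero] at h
      exact (mul_eq_zero.1 h).resolve_left hV0

/-- the terms of the first kind -/
lemma cls_wf (hs : S_SOL) (hr : S_REL) (N r s m : ℕ) (hN : 6 ≤ N) (hr1 : 1 ≤ r) (hrN : r ≤ N)
    (hs1 : 1 ≤ s) (hsN : s ≤ N - 1) (hm : 4 * N < m) (hmr : m ≡ r [MOD N])
    (hms : m ≡ s [MOD (N - 1)]) (U V Z : ℂ) (hU : U = (m : ℂ) - N)
    (hV : V = (m : ℂ) - N + 1) (hZ : Z = (m : ℂ) + 1) (hU0 : U ≠ 0) (hV0 : V ≠ 0) (hZ0 : Z ≠ 0)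
    (j k : ℕ) (hjk : (j, k) ∈ If N) :
    wf N 0 j k m = (B N 0 1 r m * B N 1 0 s m) *
      (if j = r + 1 ∧ k = s ∧ r ≤ N - 2 then -((N : ℂ) - r) / U else 0) +
      (B N 0 1 r m * B N 1 0 s m) *
      (if j = 0 ∧ k = s ∧ r = N - 1 then (N + 1) / (Z * U) else 0) +
      (B N 0 1 r m * B N 1 0 s m) *
      (if j = 0 ∧ k = N ∧ (r = N - 1 ∧ s = 1) then (N + 1) / (Z * U) * ((m : ℂ) - 1) else 0) +
      (B N 0 1 r m * B N 1 0 s m) *
      (if j = 0 ∧ k = N + 1 ∧ (r = N - 1 ∧ s = 2) then (N + 1) / (Z * U) * (((m : ℂ) - 2) / 2)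
        else 0) +
      (B N 0 1 r m * B N 1 0 s m) *
      (if j = 1 ∧ k = s ∧ (r = N - 1 ∧ 2 ≤ s) then -1 / U ^ 2 else 0) +
      (B N 0 1 r m * B N 1 0 s m) *
      (if j = 1 ∧ k = N ∧ (r = N - 1 ∧ s = 3) then
        -(((m : ℂ) - 3) * ((m : ℂ) - 2 - N) / (3 * (N + 2))) / (U ^ 2 * Z) else 0) := by
  obtain ⟨b0, bk, bN1, a1, aj, a0⟩ := cls_vals0 hs hr N r m hN hr1 hrN hm hmr U Z hU hZ hU0 hZ0
  obtain ⟨c0, ck, cN, cN1, c2N1, cz, d1, dj, d0, dN1, d2N⟩ :=
    cls_vals1 hs hr N s m hN hs1 hsN hm hms U V Z hU hV hZ hV0 hZ0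
  rw [cls_memIf] at hjk
  obtain ⟨hjk1, hjk2⟩ := hjk
  set b := B N 0 1 r m with hb
  set c := B N 1 0 s m with hc
  have hrc : r = N - 1 → (r : ℂ) = N - 1 := by
    intro h; rw [h, Nat.cast_sub (by omega)]; simp
  rcases Nat.lt_or_ge j 1 with hj | hj
  · -- j = 0
    obtain rfl : j = 0 := by omega
    have hw : wf N 0 0 k m = A N 0 1 0 m * B N 1 0 k m := by
      unfold wf
      rw [if_neg (by omega), if_neg (by omega)]
    rw [hw, a0]
    rw [if_neg (c := 0 = r + 1 ∧ k = s ∧ r ≤ N - 2) (by omega),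
      if_neg (c := 0 = 1 ∧ k = s ∧ (r = N - 1 ∧ 2 ≤ s)) (by omega),
      if_neg (c := 0 = 1 ∧ k = N ∧ (r = N - 1 ∧ s = 3)) (by omega)]
    by_cases hrr : r = N - 1
    · rw [if_pos hrr]
      rcases Nat.lt_or_ge k N with hk | hk
      · rw [ck k (by omega) (by omega)]
        rw [if_neg (c := 0 = 0 ∧ k = N ∧ (r = N - 1 ∧ s = 1)) (by omega),
          if_neg (c := 0 = 0 ∧ k = N + 1 ∧ (r = N - 1 ∧ s = 2)) (by omega)]
        by_cases hks : k = s
        · rw [if_pos hks, if_pos ⟨rfl, hks, hrr⟩]; ring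
        · rw [if_neg hks, if_neg (by omega)]; ring
      · rcases Nat.lt_or_ge N k with hk2 | hk2
        · obtain rfl : k = N + 1 := by omega
          rw [cN1]
          rw [if_neg (c := 0 = 0 ∧ N + 1 = s ∧ r = N - 1) (by omega),
            if_neg (c := 0 = 0 ∧ N + 1 = N ∧ (r = N - 1 ∧ s = 1)) (by omega)]
          by_cases hss : s = 2
          · rw [if_pos hss, if_pos ⟨rfl, rfl, hrr, hss⟩]; ring
          · rw [if_neg hss, if_neg (by omega)]; ring
        · obtain rfl : k = N := by omega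
          rw [cN]
          rw [if_neg (c := 0 = 0 ∧ k = s ∧ r = k - 1) (by omega),
            if_neg (c := 0 = 0 ∧ k = k + 1 ∧ (r = k - 1 ∧ s = 2)) (by omega)]
          by_cases hss : s = 1
          · rw [if_pos hss, if_pos ⟨rfl, rfl, hrr, hss⟩]; ring
          · rw [if_neg hss, if_neg (by omega)]; ring
    · rw [if_neg hrr, if_neg (by omega), if_neg (by omega), if_neg (by omega)]; ring
  rcases Nat.lt_or_ge j 2 with hj2 | hj2
  · -- j = 1
    obtain rfl : j = 1 := by omega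
    rw [if_neg (c := 1 = r + 1 ∧ k = s ∧ r ≤ N - 2) (by omega),
      if_neg (c := 1 = 0 ∧ k = s ∧ r = N - 1) (by omega),
      if_neg (c := 1 = 0 ∧ k = N ∧ (r = N - 1 ∧ s = 1)) (by omega),
      if_neg (c := 1 = 0 ∧ k = N + 1 ∧ (r = N - 1 ∧ s = 2)) (by omega)]
    have aN := aj N (by omega) (by omega)
    rcases Nat.lt_or_ge k 2 with hk | hk
    · have hw : wf N 0 1 k m = A N 0 1 1 m * B N 1 0 k m := by
        unfold wf
        rw [if_neg (by omega), if_neg (by omega)]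
      rw [hw, a1, if_neg (by omega), if_neg (by omega)]; ring
    · rcases Nat.lt_or_ge k N with hk2 | hk2
      · have hw : wf N 0 1 k m = A N 0 1 N m * B N 1 0 k m / ((m : ℂ) - N) := by
          unfold wf
          rw [if_pos (by omega)]
        rw [hw, aN, ck k (by omega) (by omega), ← hU]
        rw [if_neg (c := 1 = 1 ∧ k = N ∧ (r = N - 1 ∧ s = 3)) (by omega)]
        by_cases hrr : r = N - 1
        · rw [if_pos (by omega), hrc hrr]
          by_cases hks : k = s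
          · rw [if_pos hks, if_pos ⟨rfl, hks, hrr, by omega⟩]
            field_simp
            ring
          · rw [if_neg hks, if_neg (by omega)]; ring
        · rw [if_neg (by omega), if_neg (c := 1 = 1 ∧ k = s ∧ (r = N - 1 ∧ 2 ≤ s)) (by omega)]; ring
      · obtain rfl : k = N := by omega
        have hw : wf k 0 1 k m = A k 0 1 k m * B k 1 0 (2 * k + 1) m /
            (((m : ℂ) - k) * ((m : ℂ) + 1)) := by
          unfold wf
          rw [if_neg (by omega), if_pos (by omega)]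
        rw [hw, aN, c2N1, ← hU, ← hZ]
        rw [if_neg (c := 1 = 1 ∧ k = s ∧ (r = k - 1 ∧ 2 ≤ s)) (by omega)]
        by_cases hrr : r = k - 1
        · rw [if_pos (by omega), hrc hrr]
          by_cases hks : s = 3
          · rw [if_pos hks, if_pos ⟨rfl, rfl, hrr, by omega⟩]
            have hN2C : (k : ℂ) + 2 ≠ 0 := by
              have : k + 2 ≠ 0 := by omega
              exact_mod_cast this
            field_simp
            ring
          · rw [if_neg hks, if_neg (by omega)]; ring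
        · rw [if_neg (by omega), if_neg (c := 1 = 1 ∧ k = k ∧ (r = k - 1 ∧ s = 3)) (by omega)]; ring
  · -- 2 ≤ j
    have hw : wf N 0 j k m = A N 0 1 j m * B N 1 0 k m := by
      unfold wf
      rw [if_neg (by omega), if_neg (by omega)]
    rw [hw, aj j hj2 (by omega), ck k (by omega) (by omega)]
    rw [if_neg (c := j = 0 ∧ k = s ∧ r = N - 1) (by omega),
      if_neg (c := j = 0 ∧ k = N ∧ (r = N - 1 ∧ s = 1)) (by omega),
      if_neg (c := j = 0 ∧ k = N + 1 ∧ (r = N - 1 ∧ s = 2)) (by omega),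
      if_neg (c := j = 1 ∧ k = s ∧ (r = N - 1 ∧ 2 ≤ s)) (by omega),
      if_neg (c := j = 1 ∧ k = N ∧ (r = N - 1 ∧ s = 3)) (by omega)]
    by_cases h1 : j = r + 1
    · rw [if_pos h1]
      by_cases h2 : k = s
      · rw [if_pos h2, if_pos ⟨h1, h2, by omega⟩]; ring
      · rw [if_neg h2, if_neg (by omega)]; ring
    · rw [if_neg h1, zero_mul, if_neg (by omega)]; ring

/-- the terms of the second kind -/
lemma cls_wg (hs : S_SOL) (hr : S_REL) (N r s m : ℕ) (hN : 6 ≤ N) (hr1 : 1 ≤ r) (hrN : r ≤ N)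
    (hs1 : 1 ≤ s) (hsN : s ≤ N - 1) (hm : 4 * N < m) (hmr : m ≡ r [MOD N])
    (hms : m ≡ s [MOD (N - 1)]) (U V Z : ℂ) (hU : U = (m : ℂ) - N)
    (hV : V = (m : ℂ) - N + 1) (hZ : Z = (m : ℂ) + 1) (hU0 : U ≠ 0) (hV0 : V ≠ 0) (hZ0 : Z ≠ 0)
    (j k : ℕ) (hjk : (j, k) ∈ Ig N) :
    wg N 0 j k m = (B N 0 1 r m * B N 1 0 s m) *
      (if j = s + 1 ∧ k = r ∧ s ≤ N - 2 then -((N : ℂ) - 1 - s) / V else 0) +
      (B N 0 1 r m * B N 1 0 s m) *
      (if j = 0 ∧ k = r ∧ s = N - 2 then N / (Z * V) else 0) +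
      (B N 0 1 r m * B N 1 0 s m) *
      (if j = 0 ∧ k = N + 1 ∧ (s = N - 2 ∧ r = 1) then N / (Z * V) * ((m : ℂ) - 1) else 0) +
      (B N 0 1 r m * B N 1 0 s m) *
      (if j = 1 ∧ k = r ∧ (s = 1 ∧ r ≠ N - 1) then ((m : ℂ) - 1) / V ^ 2 else 0) +
      (B N 0 1 r m * B N 1 0 s m) *
      (if j = N ∧ k = 1 ∧ (s = 1 ∧ r = 1) then ((m : ℂ) - 1) * U / V ^ 2 else 0) := by
  obtain ⟨b0, bk, bN1, a1, aj, a0⟩ := cls_vals0 hs hr N r m hN hr1 hrN hm hmr U Z hU hZ hU0 hZ0
  obtain ⟨c0, ck, cN, cN1, c2N1, cz, d1, dj, d0, dN1, d2N⟩ :=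
    cls_vals1 hs hr N s m hN hs1 hsN hm hms U V Z hU hV hZ hV0 hZ0
  rw [cls_memIg] at hjk
  obtain ⟨hjk1, hjk2, hjk3⟩ := hjk
  set b := B N 0 1 r m with hb
  set c := B N 1 0 s m with hc
  rcases Nat.lt_or_ge j 1 with hj | hj
  · -- j = 0
    obtain rfl : j = 0 := by omega
    have hw : wg N 0 0 k m = A N 1 0 0 m * B N 0 1 k m := by
      unfold wg
      rw [if_neg (by omega), if_neg (by omega)]
    rw [hw, d0]
    rw [if_neg (c := 0 = s + 1 ∧ k = r ∧ s ≤ N - 2) (by omega),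
      if_neg (c := 0 = 1 ∧ k = r ∧ (s = 1 ∧ r ≠ N - 1)) (by omega),
      if_neg (c := 0 = N ∧ k = 1 ∧ (s = 1 ∧ r = 1)) (by omega)]
    by_cases hss : s = N - 2
    · rw [if_pos hss]
      rcases Nat.lt_or_ge N k with hk | hk
      · obtain rfl : k = N + 1 := by omega
        rw [bN1]
        rw [if_neg (c := 0 = 0 ∧ N + 1 = r ∧ s = N - 2) (by omega)]
        by_cases hr' : r = 1
        · rw [if_pos hr', if_pos ⟨rfl, rfl, hss, hr'⟩]; ring
        · rw [if_neg hr', if_neg (by omega)]; ring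
      · rw [bk k (by omega) (by omega)]
        rw [if_neg (c := 0 = 0 ∧ k = N + 1 ∧ (s = N - 2 ∧ r = 1)) (by omega)]
        by_cases hkr : k = r
        · rw [if_pos hkr, if_pos ⟨rfl, hkr, hss⟩]; ring
        · rw [if_neg hkr, if_neg (by omega)]; ring
    · rw [if_neg hss, if_neg (by omega), if_neg (by omega)]; ring
  rcases Nat.lt_or_ge j 2 with hj2 | hj2
  · -- j = 1
    obtain rfl : j = 1 := by omega
    rw [if_neg (c := 1 = s + 1 ∧ k = r ∧ s ≤ N - 2) (by omega),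
      if_neg (c := 1 = 0 ∧ k = r ∧ s = N - 2) (by omega),
      if_neg (c := 1 = 0 ∧ k = N + 1 ∧ (s = N - 2 ∧ r = 1)) (by omega),
      if_neg (c := 1 = N ∧ k = 1 ∧ (s = 1 ∧ r = 1)) (by omega)]
    by_cases hk : k = N - 1
    · have hw : wg N 0 1 k m = A N 1 0 1 m * B N 0 1 k m := by
        unfold wg
        rw [if_neg (by omega), if_neg (by omega)]
      rw [hw, d1, if_neg (by omega)]; ring
    · have hw : wg N 0 1 k m = A N 1 0 (N + 1) m * B N 0 1 k m / ((m : ℂ) - N + 1) := by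
        unfold wg
        rw [if_pos (by omega)]
      rw [hw, dN1, bk k (by omega) (by omega), ← hV]
      by_cases hss : s = 1
      · rw [if_pos hss]
        by_cases hkr : k = r
        · rw [if_pos hkr, if_pos ⟨rfl, hkr, hss, by omega⟩]
          field_simp
          ring
        · rw [if_neg hkr, if_neg (by omega)]; ring
      · rw [if_neg hss, zero_mul, zero_div, if_neg (by omega)]; ring
  · -- 2 ≤ j
    rw [if_neg (c := j = 0 ∧ k = r ∧ s = N - 2) (by omega),
      if_neg (c := j = 0 ∧ k = N + 1 ∧ (s = N - 2 ∧ r = 1)) (by omega),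
      if_neg (c := j = 1 ∧ k = r ∧ (s = 1 ∧ r ≠ N - 1)) (by omega)]
    by_cases hjN : j = N
    · have hk1 : k = 1 := by omega
      have hw : wg N 0 j k m = A N 1 0 (2 * N) m * B N 0 1 k m / ((m : ℂ) - N + 1) := by
        unfold wg
        rw [if_neg (by omega), if_pos (by omega)]
      rw [hw, d2N, bk k (by omega) (by omega), ← hV]
      rw [if_neg (c := j = s + 1 ∧ k = r ∧ s ≤ N - 2) (by omega)]
      by_cases hss : s = 1
      · rw [if_pos hss]
        by_cases hkr : k = r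
        · rw [if_pos hkr, if_pos ⟨hjN, hk1, hss, by omega⟩]
          field_simp
          ring
        · rw [if_neg hkr, if_neg (by omega)]; ring
      · rw [if_neg hss, zero_mul, zero_div, if_neg (by omega)]; ring
    · have hw : wg N 0 j k m = A N 1 0 j m * B N 0 1 k m := by
        unfold wg
        rw [if_neg (by omega), if_neg (by omega)]
      rw [hw, dj j hj2 (by omega), bk k (by omega) (by omega)]
      rw [if_neg (c := j = N ∧ k = 1 ∧ (s = 1 ∧ r = 1)) (by omega)]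
      by_cases h1 : j = s + 1
      · rw [if_pos h1]
        by_cases h2 : k = r
        · rw [if_pos h2, if_pos ⟨h1, h2, by omega⟩]; ring
        · rw [if_neg h2, if_neg (by omega)]; ring
      · rw [if_neg h1, zero_mul, if_neg (by omega)]; ring

theorem cls_all (hs : S_SOL) (hr : S_REL) : S_CLS := by
  intro N lf lg hN H r s m hr1 hrN hs1 hsN hm hmr hms U V Z hU hV hZ
  have hU0 : U ≠ 0 := by
    intro h
    have h2 : (m : ℂ) = N := by linear_combination h - hU
    have h3 : m = N := by exact_mod_cast h2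
    omega
  have hV0 : V ≠ 0 := by
    intro h
    have h2 : ((m + 1 : ℕ) : ℂ) = N := by push_cast; linear_combination h - hV
    have h3 : m + 1 = N := by exact_mod_cast h2
    omega
  have hZ0 : Z ≠ 0 := by
    rw [hZ]; exact Nat.cast_add_one_ne_zero m
  have b0 := (cls_vals0 hs hr N r m hN hr1 hrN hm hmr U Z hU hZ hU0 hZ0).1
  have c0 := (cls_vals1 hs hr N s m hN hs1 hsN hm hms U V Z hU hV hZ hV0 hZ0).1
  have hW := mul_ne_zero b0 c0
  have Hm := H m
  have e1 := Finset.sum_congr (s₁ := If N) rfl (fun x hx => by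
    rw [cls_wf hs hr N r s m hN hr1 hrN hs1 hsN hm hmr hms U V Z hU hV hZ hU0 hV0 hZ0 x.1 x.2 hx] :
    ∀ x ∈ If N, lf x.1 x.2 * wf N 0 x.1 x.2 m = _)
  have e2 := Finset.sum_congr (s₁ := Ig N) rfl (fun x hx => by
    rw [cls_wg hs hr N r s m hN hr1 hrN hs1 hsN hm hmr hms U V Z hU hV hZ hU0 hV0 hZ0 x.1 x.2 hx] :
    ∀ x ∈ Ig N, lg x.1 x.2 * wg N 0 x.1 x.2 m = _)
  rw [e1, e2] at Hm
  simp only [mul_add, Finset.sum_add_distrib, cls_sum] at Hm
  repeat rw [← mul_add] at Hm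
  have H2 := (mul_eq_zero.1 Hm).resolve_left hW
  rw [if_congr (show ((r + 1, s) ∈ If N ∧ r ≤ N - 2) ↔ (r ≤ N - 2 ∧ r + s ≤ N) by
      rw [cls_memIf]; omega) rfl rfl,
    if_congr (show ((0, s) ∈ If N ∧ r = N - 1) ↔ (r = N - 1) by
      rw [cls_memIf]; omega) rfl rfl,
    if_congr (show ((0, N) ∈ If N ∧ r = N - 1 ∧ s = 1) ↔ (r = N - 1 ∧ s = 1) by
      rw [cls_memIf]; omega) rfl rfl,
    if_congr (show ((0, N + 1) ∈ If N ∧ r = N - 1 ∧ s = 2) ↔ (r = N - 1 ∧ s = 2) by
      rw [cls_memIf]; omega) rfl rfl,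
    if_congr (show ((1, s) ∈ If N ∧ r = N - 1 ∧ 2 ≤ s) ↔ (r = N - 1 ∧ 2 ≤ s) by
      rw [cls_memIf]; omega) rfl rfl,
    if_congr (show ((1, N) ∈ If N ∧ r = N - 1 ∧ s = 3) ↔ (r = N - 1 ∧ s = 3) by
      rw [cls_memIf]; omega) rfl rfl,
    if_congr (show ((s + 1, r) ∈ Ig N ∧ s ≤ N - 2) ↔
        (s ≤ N - 2 ∧ r + s ≤ N ∧ ¬(r = 1 ∧ s = N - 2)) by
      rw [cls_memIg]; omega) rfl rfl,
    if_congr (show ((0, r) ∈ Ig N ∧ s = N - 2) ↔ (s = N - 2) by
      rw [cls_memIg]; omega) rfl rfl,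
    if_congr (show ((0, N + 1) ∈ Ig N ∧ s = N - 2 ∧ r = 1) ↔ (s = N - 2 ∧ r = 1) by
      rw [cls_memIg]; omega) rfl rfl,
    if_congr (show ((1, r) ∈ Ig N ∧ s = 1 ∧ r ≠ N - 1) ↔ (s = 1 ∧ r ≠ N - 1) by
      rw [cls_memIg]; omega) rfl rfl,
    if_congr (show ((N, 1) ∈ Ig N ∧ s = 1 ∧ r = 1) ↔ (s = 1 ∧ r = 1) by
      rw [cls_memIg]; omega) rfl rfl] at H2
  have g1 : (if r ≤ N - 2 ∧ r + s ≤ N then -((N : ℂ) - r) * lf (r + 1) s / U else 0) =
      (if r ≤ N - 2 ∧ r + s ≤ N then lf (r + 1) s * (-((N : ℂ) - r) / U) else 0) := by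
    split_ifs <;> ring
  have g2 : (if r = N - 1 then
      (N + 1) / (Z * U) * (lf 0 s + (if s = 1 then ((m : ℂ) - 1) * lf 0 N else 0) +
        (if s = 2 then ((m : ℂ) - 2) / 2 * lf 0 (N + 1) else 0)) +
      (if 2 ≤ s then -lf 1 s / U ^ 2 else 0) +
      (if s = 3 then -(((m : ℂ) - 3) * ((m : ℂ) - 2 - N) / (3 * (N + 2)) * lf 1 N) / (U ^ 2 * Z)
        else 0) else 0) =
      (if r = N - 1 then lf 0 s * (((N : ℂ) + 1) / (Z * U)) else 0) +
      (if r = N - 1 ∧ s = 1 then lf 0 N * (((N : ℂ) + 1) / (Z * U) * ((m : ℂ) - 1)) else 0) +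
      (if r = N - 1 ∧ s = 2 then lf 0 (N + 1) * (((N : ℂ) + 1) / (Z * U) * (((m : ℂ) - 2) / 2))
        else 0) +
      (if r = N - 1 ∧ 2 ≤ s then lf 1 s * (-1 / U ^ 2) else 0) +
      (if r = N - 1 ∧ s = 3 then
        lf 1 N * (-(((m : ℂ) - 3) * ((m : ℂ) - 2 - N) / (3 * (N + 2))) / (U ^ 2 * Z)) else 0) := by
    by_cases h : r = N - 1
    · simp only [h, true_and, if_true]
      by_cases h1 : s = 1
      · rw [if_pos h1, if_neg (by omega), if_neg (by omega), if_neg (by omega), if_pos h1,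
          if_neg (by omega), if_neg (by omega), if_neg (by omega)]
        ring
      · by_cases h2 : s = 2
        · rw [if_neg h1, if_pos h2, if_pos (by omega), if_neg (by omega), if_neg h1,
            if_pos h2, if_pos (by omega), if_neg (by omega)]
          ring
        · by_cases h3 : s = 3
          · rw [if_neg h1, if_neg h2, if_pos (by omega), if_pos (by omega), if_neg h1,
              if_neg h2, if_pos (by omega), if_pos (by omega)]
            ring
          · rw [if_neg h1, if_neg h2, if_pos (by omega), if_neg (by omega), if_neg h1,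
              if_neg h2, if_pos (by omega), if_neg (by omega)]
            ring
    · simp only [h, false_and, if_false, add_zero]
  have g3 : (if s ≤ N - 2 ∧ r + s ≤ N ∧ ¬(r = 1 ∧ s = N - 2) then
      -((N : ℂ) - 1 - s) * lg (s + 1) r / V else 0) =
      (if s ≤ N - 2 ∧ r + s ≤ N ∧ ¬(r = 1 ∧ s = N - 2) then
        lg (s + 1) r * (-((N : ℂ) - 1 - s) / V) else 0) := by
    by_cases h : s ≤ N - 2 ∧ r + s ≤ N ∧ ¬(r = 1 ∧ s = N - 2)
    · rw [if_pos h, if_pos h]; ring
    · rw [if_neg h, if_neg h]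
  have g4 : (if s = N - 2 then
      N / (Z * V) * (lg 0 r + (if r = 1 then ((m : ℂ) - 1) * lg 0 (N + 1) else 0)) else 0) =
      (if s = N - 2 then lg 0 r * ((N : ℂ) / (Z * V)) else 0) +
      (if s = N - 2 ∧ r = 1 then lg 0 (N + 1) * ((N : ℂ) / (Z * V) * ((m : ℂ) - 1)) else 0) := by
    by_cases h : s = N - 2
    · by_cases h1 : r = 1
      · rw [if_pos h, if_pos h1, if_pos h, if_pos ⟨h, h1⟩]; ring
      · rw [if_pos h, if_neg h1, if_pos h, if_neg (fun h2 => h1 h2.2)]; ring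
    · rw [if_neg h, if_neg h, if_neg (fun h2 => h h2.1)]; ring
  have g5 : (if s = 1 then (if r ≠ N - 1 then ((m : ℂ) - 1) * lg 1 r / V ^ 2 else 0) +
      (if r = 1 then ((m : ℂ) - 1) * U * lg N 1 / V ^ 2 else 0) else 0) =
      (if s = 1 ∧ r ≠ N - 1 then lg 1 r * (((m : ℂ) - 1) / V ^ 2) else 0) +
      (if s = 1 ∧ r = 1 then lg N 1 * (((m : ℂ) - 1) * U / V ^ 2) else 0) := by
    by_cases h : s = 1
    · simp only [h, true_and, if_true]
      split_ifs <;> ring
    · simp only [h, false_and, if_false, add_zero]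
  rw [g1, g2, g3, g4, g5]
  linear_combination H2

end Pool.Agent.Y300.LC
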