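import Mathlib

/-! Project LC (helper300): local cyclicity of planar polynomial systems.
Formal linearisation of `z + p z^N + q z^(N+1)`, Melnikov functions of the holomorphic centre. -/

set_option autoImplicit false

open PowerSeries Finset Filter Topology MeasureTheory
open scoped ComplexConjugate

namespace Pool.Agent.Y300.LC

/-- `F = X + ...` is the formal linearisation of the field `z + p z^N + q z^(N+1)` -/
def IsSol {R : Type} [CommRing R] (N : ℕ) (p q : R) (F : PowerSeries R) : Prop :=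
  constantCoeff F = 0 ∧ coeff 1 F = 1 ∧
    X * derivative R F = F + C p * F ^ N + C q * F ^ (N + 1)

/-- coefficients of the powers -/
noncomputable def bb {R : Type} [CommRing R] (F : PowerSeries R) (k m : ℕ) : R :=
  coeff m (F ^ k)

/-- `F ^ j / F'` -/
noncomputable def ser {R : Type} [CommRing R] (F : PowerSeries R) (j : ℕ) : PowerSeries R :=
  F ^ j * invOfUnit (derivative R F) 1

/-- coefficients of `F ^ j / (X F')` -/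
noncomputable def aa {R : Type} [CommRing R] (F : PowerSeries R) (j m : ℕ) : R :=
  coeff (m + 1) (ser F j)

/-- the formal linearisation -/
noncomputable def sol {R : Type} [CommRing R] (N : ℕ) (p q : R) : PowerSeries R :=
  Classical.epsilon (IsSol N p q)

noncomputable def A (N : ℕ) (p q : ℂ) (j m : ℕ) : ℂ := aa (sol N p q) j m

noncomputable def B (N : ℕ) (p q : ℂ) (k m : ℕ) : ℂ := bb (sol N p q) k m

/-- existence and uniqueness -/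
def S_SOL : Prop := ∀ (R : Type) [CommRing R] [Algebra ℚ R] (N : ℕ) (p q : R), 2 ≤ N →
  ∃! F : PowerSeries R, IsSol N p q F

/-- the relations between the coefficients -/
structure Rel {R : Type} [CommRing R] (N : ℕ) (p q : R) (F : PowerSeries R) : Prop where
  r1 : ∀ k m : ℕ, ((m : R) - k) * bb F k m =
    k * (p * bb F (k + N - 1) m + q * bb F (k + N) m)
  r2 : ∀ j m : ℕ, aa F (j + 1) m + p * aa F (j + N) m + q * aa F (j + 1 + N) m = bb F j m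
  r3 : ∀ j m : ℕ, ((m : R) + 1) * aa F (j + 1) m =
    (j + 1) * bb F j m - (N * p * aa F (j + N) m + (N + 1) * q * aa F (j + 1 + N) m)
  r4 : ∀ m : ℕ, ((m : R) + 1) * aa F 0 m = -(N * p * aa F (N - 1) m + (N + 1) * q * aa F N m)
  r5 : ∀ k m : ℕ, m < k → bb F k m = 0
  r6 : ∀ k : ℕ, bb F k k = 1
  r7 : ∀ m : ℕ, bb F 0 m = if m = 0 then 1 else 0
  r8 : ∀ j m : ℕ, m < j → aa F (j + 1) m = 0
  r9 : ∀ j : ℕ, aa F (j + 1) j = 1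

def S_REL : Prop := ∀ (R : Type) [CommRing R] (N : ℕ) (p q : R) (F : PowerSeries R), 2 ≤ N →
  IsSol N p q F → Rel N p q F

/-- the two coefficients are polynomials in the parameters -/
def S_POLY : Prop := ∀ N j m : ℕ, 2 ≤ N →
  (∃ P : MvPolynomial (Fin 2) ℂ, ∀ p q : ℂ, A N p q j m = MvPolynomial.eval ![p, q] P) ∧
  ∃ P : MvPolynomial (Fin 2) ℂ, ∀ p q : ℂ, B N p q j m = MvPolynomial.eval ![p, q] P

/-- complex conjugation -/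
def S_BAR : Prop := ∀ (N j m : ℕ) (p q : ℂ), 2 ≤ N →
  A N (conj p) (conj q) j m = conj (A N p q j m) ∧ B N (conj p) (conj q) j m = conj (B N p q j m)

/-- exponents of the monomials `z^j conj(z)^k` of degree at most `N + 1` -/
def J (N : ℕ) : Finset (ℕ × ℕ) :=
  ((range (N + 2)) ×ˢ (range (N + 2))).filter fun x => x.1 + x.2 ≤ N + 1

/-- the two families of sequences -/
noncomputable def fam (N : ℕ) (p q p' q' : ℂ) : (J N ⊕ J N) → ℕ → ℂ :=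
  Sum.elim (fun x m => A N p q x.1.1 m * B N p' q' x.1.2 m)
    (fun x m => A N p' q' x.1.1 m * B N p q x.1.2 m)

noncomputable def rk (N : ℕ) (p q p' q' : ℂ) : ℕ :=
  Module.finrank ℂ (Submodule.span ℂ (Set.range (fam N p q p' q')))

/-- the algebraic core -/
def S_CORE : Prop := ∀ N : ℕ, 6 ≤ N → ∃ p q p' q' : ℂ, N ^ 2 + 3 * N + 1 ≤ rk N p q p' q'

def S_CONJ : Prop := ∀ N : ℕ, 6 ≤ N →
  ∃ p q : ℂ, q ≠ 0 ∧ N ^ 2 + 3 * N + 1 ≤ rk N p q (conj p) (conj q)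

/-- independent functions have a nonzero minor -/
def S_MINOR : Prop := ∀ (K : Type) [Field K] (X : Type) (d : ℕ) (v : Fin d → X → K),
  LinearIndependent K v → ∃ x : Fin d → X, (Matrix.of fun i j => v i (x j)).det ≠ 0

def S_ZAR : Prop := ∀ D : MvPolynomial (Fin 4) ℂ, D ≠ 0 →
  ∃ p q : ℂ, MvPolynomial.eval ![p, q, conj p, conj q] D ≠ 0

/-- semicontinuity of the rank -/
def S_LIM : Prop := ∀ (ι : Type) [Fintype ι] (S : ℂ → Submodule ℂ (ℕ → ℂ)) (G : ℂ → ι → ℕ → ℂ),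
  (∀ s : ℂ, FiniteDimensional ℂ (S s)) → (∀ s : ℂ, s ≠ 0 → ∀ i, G s i ∈ S s) →
  (∀ i m, ContinuousAt (fun s => G s i m) 0) → LinearIndependent ℂ (G 0) →
  ∃ s : ℂ, s ≠ 0 ∧ Fintype.card ι ≤ Module.finrank ℂ (S s)

/-- the indices of the first kind which are kept -/
def If (N : ℕ) : Finset (ℕ × ℕ) :=
  (J N).filter fun x => (1 ≤ x.2 ∧ x ≠ (N, 1)) ∨ x = (1, 0)

def Ig (N : ℕ) : Finset (ℕ × ℕ) :=
  (J N).filter fun x => 1 ≤ x.2 ∧ x ≠ (N - 1, 1)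

def S_CARD : Prop := ∀ N : ℕ, 2 ≤ N → (If N).card + (Ig N).card = N ^ 2 + 3 * N + 1

/-- the limit of the rescaled first family for `p = s → 0`, `q = 1`, with `p' = 1`, `q' = t` -/
noncomputable def uf (N : ℕ) (t : ℂ) (j k m : ℕ) : ℂ :=
  if j = 1 ∧ 2 ≤ k ∧ k ≤ N - 1 then A N 0 1 N m * B N 1 t k m / ((m : ℂ) - N)
  else if j = 1 ∧ k = N then
    A N 0 1 N m * (B N 1 t N m - ((N : ℂ) - 1) * B N 1 t 1 m) / ((m : ℂ) - N)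
  else A N 0 1 j m * B N 1 t k m

noncomputable def ug (N : ℕ) (t : ℂ) (j k m : ℕ) : ℂ := A N 1 t j m * B N 0 1 k m

noncomputable def fam1 (N : ℕ) (t : ℂ) : (J N ⊕ J N) → ℕ → ℂ :=
  Sum.elim (fun x m => uf N t x.1.1 x.1.2 m) (fun x m => ug N t x.1.1 x.1.2 m)

/-- the limit of the rescaled families for `t → 0` -/
noncomputable def wf (N : ℕ) (t : ℂ) (j k m : ℕ) : ℂ :=
  if j = 1 ∧ 2 ≤ k ∧ k ≤ N - 1 then A N 0 1 N m * B N 1 t k m / ((m : ℂ) - N)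
  else if j = 1 ∧ k = N then
    A N 0 1 N m * B N 1 t (2 * N + 1) m / (((m : ℂ) - N) * ((m : ℂ) + 1))
  else A N 0 1 j m * B N 1 t k m

noncomputable def wg (N : ℕ) (t : ℂ) (j k m : ℕ) : ℂ :=
  if j = 1 ∧ k ≠ N - 1 then A N 1 t (N + 1) m * B N 0 1 k m / ((m : ℂ) - N + 1)
  else if j = N then A N 1 t (2 * N) m * B N 0 1 k m / ((m : ℂ) - N + 1)
  else A N 1 t j m * B N 0 1 k m

/-- first limit `s → 0` -/
def S_ST2 : Prop := ∀ (N r : ℕ) (t : ℂ), 6 ≤ N →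
  r ≤ Module.finrank ℂ (Submodule.span ℂ (Set.range (fam1 N t))) →
  ∃ s : ℂ, r ≤ rk N s 1 1 t

/-- the hidden element of the span -/
def S_CHAIN : Prop := ∀ (N : ℕ) (t : ℂ), 6 ≤ N → t ≠ 0 →
  (fun m : ℕ => A N 0 1 N m * B N 1 t (2 * N + 1) m / (((m : ℂ) - N) * ((m : ℂ) + 1))) ∈
    Submodule.span ℂ (Set.range (fam1 N t))

/-- the rescaled second family is in the span -/
def S_SPAN : Prop := ∀ (N : ℕ) (t : ℂ), 6 ≤ N → t ≠ 0 →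
  (∀ x ∈ If N, (fun m => wf N t x.1 x.2 m) ∈ Submodule.span ℂ (Set.range (fam1 N t))) ∧
  (∀ x ∈ Ig N, (fun m => wg N t x.1 x.2 m) ∈ Submodule.span ℂ (Set.range (fam1 N t)))

/-- independence of the limits -/
def S_IND : Prop := ∀ (N : ℕ) (lf lg : ℕ → ℕ → ℂ), 6 ≤ N →
  (∀ m : ℕ, ∑ x ∈ If N, lf x.1 x.2 * wf N 0 x.1 x.2 m +
    ∑ x ∈ Ig N, lg x.1 x.2 * wg N 0 x.1 x.2 m = 0) →
  (∀ x ∈ If N, lf x.1 x.2 = 0) ∧ (∀ x ∈ Ig N, lg x.1 x.2 = 0)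

/-- the relation in one residue class `m ≡ r (mod N)`, `m ≡ s (mod N - 1)` -/
def S_CLS : Prop := ∀ (N : ℕ) (lf lg : ℕ → ℕ → ℂ), 6 ≤ N →
  (∀ m : ℕ, ∑ x ∈ If N, lf x.1 x.2 * wf N 0 x.1 x.2 m +
    ∑ x ∈ Ig N, lg x.1 x.2 * wg N 0 x.1 x.2 m = 0) →
  ∀ r s m : ℕ, 1 ≤ r → r ≤ N → 1 ≤ s → s ≤ N - 1 → 4 * N < m → m ≡ r [MOD N] →
    m ≡ s [MOD (N - 1)] → ∀ U V Z : ℂ, U = (m : ℂ) - N → V = (m : ℂ) - N + 1 → Z = (m : ℂ) + 1 →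
    (if r ≤ N - 2 ∧ r + s ≤ N then -((N : ℂ) - r) * lf (r + 1) s / U else 0) +
    (if r = N - 1 then
      (N + 1) / (Z * U) * (lf 0 s + (if s = 1 then ((m : ℂ) - 1) * lf 0 N else 0) +
        (if s = 2 then ((m : ℂ) - 2) / 2 * lf 0 (N + 1) else 0)) +
      (if 2 ≤ s then -lf 1 s / U ^ 2 else 0) +
      (if s = 3 then -(((m : ℂ) - 3) * ((m : ℂ) - 2 - N) / (3 * (N + 2)) * lf 1 N) / (U ^ 2 * Z)
        else 0) else 0) +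
    (if s ≤ N - 2 ∧ r + s ≤ N ∧ ¬(r = 1 ∧ s = N - 2) then -((N : ℂ) - 1 - s) * lg (s + 1) r / V
      else 0) +
    (if s = N - 2 then N / (Z * V) * (lg 0 r + (if r = 1 then ((m : ℂ) - 1) * lg 0 (N + 1) else 0))
      else 0) +
    (if s = 1 then (if r ≠ N - 1 then ((m : ℂ) - 1) * lg 1 r / V ^ 2 else 0) +
      (if r = 1 then ((m : ℂ) - 1) * U * lg N 1 / V ^ 2 else 0) else 0) = 0

/-- rational functions -/
def S_RAT : Prop := ∀ (N : ℕ) (S : Set ℕ), 6 ≤ N → S.Infinite → (∀ m ∈ S, 4 * N < m) →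
  -- class (r, s), generic
  (∀ a b : ℂ, (∀ m ∈ S, a / ((m : ℂ) - N) + b / ((m : ℂ) - N + 1) = 0) → a = 0 ∧ b = 0) ∧
  -- class (r, 1)
  (∀ a b c d : ℂ, (∀ m ∈ S, a / ((m : ℂ) - N) + b / ((m : ℂ) - N + 1) +
      c * ((m : ℂ) - 1) / ((m : ℂ) - N + 1) ^ 2 +
      d * ((m : ℂ) - 1) * ((m : ℂ) - N) / ((m : ℂ) - N + 1) ^ 2 = 0) →
    a = 0 ∧ b = 0 ∧ c = 0 ∧ d = 0) ∧
  -- class (1, N - 2)
  (∀ a b c : ℂ, (∀ m ∈ S, a / ((m : ℂ) - N) + b / (((m : ℂ) + 1) * ((m : ℂ) - N + 1)) +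
      c * ((m : ℂ) - 1) / (((m : ℂ) + 1) * ((m : ℂ) - N + 1)) = 0) → a = 0 ∧ b = 0 ∧ c = 0) ∧
  -- class (2, N - 2)
  (∀ a b c : ℂ, (∀ m ∈ S, a / ((m : ℂ) - N) + b / ((m : ℂ) - N + 1) +
      c / (((m : ℂ) + 1) * ((m : ℂ) - N + 1)) = 0) → a = 0 ∧ b = 0 ∧ c = 0) ∧
  -- class (N - 1, 1)
  (∀ a b c : ℂ, (∀ m ∈ S, a / (((m : ℂ) + 1) * ((m : ℂ) - N)) +
      b * ((m : ℂ) - 1) / (((m : ℂ) + 1) * ((m : ℂ) - N)) + c / ((m : ℂ) - N + 1) = 0) →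
    a = 0 ∧ b = 0 ∧ c = 0) ∧
  -- class (N - 1, 2)
  (∀ a b c : ℂ, (∀ m ∈ S, a / (((m : ℂ) + 1) * ((m : ℂ) - N)) +
      b * ((m : ℂ) - 2) / (((m : ℂ) + 1) * ((m : ℂ) - N)) + c / ((m : ℂ) - N) ^ 2 = 0) →
    a = 0 ∧ b = 0 ∧ c = 0) ∧
  -- class (N - 1, 3)
  (∀ a b c : ℂ, (∀ m ∈ S, a / (((m : ℂ) + 1) * ((m : ℂ) - N)) + b / ((m : ℂ) - N) ^ 2 +
      c * (((m : ℂ) - 3) * ((m : ℂ) - 2 - N)) / (((m : ℂ) - N) ^ 2 * ((m : ℂ) + 1)) = 0) →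
    a = 0 ∧ b = 0 ∧ c = 0) ∧
  -- class (N - 1, s)
  (∀ a b c : ℂ, (∀ m ∈ S, a / (((m : ℂ) + 1) * ((m : ℂ) - N)) + b / ((m : ℂ) - N) ^ 2 +
      c / (((m : ℂ) + 1) * ((m : ℂ) - N + 1)) = 0) → a = 0 ∧ b = 0 ∧ c = 0)

/-- the analytic linearisation -/
structure Lin (N : ℕ) (p q : ℂ) (δ : ℝ) (φ : ℂ → ℂ) : Prop where
  pos : 0 < δ
  zero : φ 0 = 0
  diff : DifferentiableOn ℂ φ (Metric.ball 0 δ)
  inj : Set.InjOn φ (Metric.ball 0 δ)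
  der : ∀ w ∈ Metric.ball (0:ℂ) δ, deriv φ w ≠ 0
  eq : ∀ w ∈ Metric.ball (0:ℂ) δ, w * deriv φ w = φ w + p * φ w ^ N + q * φ w ^ (N + 1)
  serB : ∀ k : ℕ, ∀ w ∈ Metric.ball (0:ℂ) δ, HasSum (fun m => B N p q k m * w ^ m) (φ w ^ k)
  serA : ∀ j : ℕ, ∀ w ∈ Metric.ball (0:ℂ) δ,
    HasSum (fun m => coeff m (ser (sol N p q) j) * w ^ m) (φ w ^ j / deriv φ w)

/-- analytic solution near the origin -/
def S_LOC : Prop := ∀ (N : ℕ) (p q : ℂ), 2 ≤ N → ∃ (δ : ℝ) (φ : ℂ → ℂ), 0 < δ ∧ φ 0 = 0 ∧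
  DifferentiableOn ℂ φ (Metric.ball 0 δ) ∧ Set.InjOn φ (Metric.ball 0 δ) ∧ deriv φ 0 = 1 ∧
  (∀ w ∈ Metric.ball (0:ℂ) δ, deriv φ w ≠ 0) ∧
  ∀ w ∈ Metric.ball (0:ℂ) δ, w * deriv φ w = φ w + p * φ w ^ N + q * φ w ^ (N + 1)

def S_ANA : Prop := ∀ (N : ℕ) (p q : ℂ), 2 ≤ N → ∃ (δ : ℝ) (φ : ℂ → ℂ), Lin N p q δ φ

/-- Parseval -/
def S_PARS : Prop := ∀ (δ : ℝ) (a b : ℕ → ℂ) (f g : ℂ → ℂ),
  (∀ w ∈ Metric.ball (0:ℂ) δ, HasSum (fun m => a m * w ^ m) (f w)) →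
  (∀ w ∈ Metric.ball (0:ℂ) δ, HasSum (fun m => b m * w ^ m) (g w)) →
  ∀ ρ : ℝ, 0 < ρ → ρ < δ →
    HasSum (fun m => 2 * Real.pi * (a m * conj (b m) * ((ρ:ℂ) ^ 2) ^ m))
      (∫ θ in (0:ℝ)..(2 * Real.pi), f (ρ * Complex.exp (θ * Complex.I)) *
        conj (g (ρ * Complex.exp (θ * Complex.I))))

/-- the sequences of the Melnikov functions -/
noncomputable def vv (N : ℕ) (p q : ℂ) (j k m : ℕ) : ℂ := A N p q j m * conj (B N p q k m)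

def S_MEL : Prop := ∀ (N : ℕ) (p q : ℂ) (δ : ℝ) (φ : ℂ → ℂ), 2 ≤ N → Lin N p q δ φ →
  ∀ (j k : ℕ) (ρ : ℝ), 0 < ρ → ρ < δ → Summable (fun m => vv N p q j k m * ((ρ:ℂ) ^ 2) ^ m) ∧
    ∫ θ in (0:ℝ)..(2 * Real.pi), conj ((ρ:ℂ) * Complex.exp (θ * Complex.I)) *
        (φ (ρ * Complex.exp (θ * Complex.I)) ^ j * conj (φ (ρ * Complex.exp (θ * Complex.I))) ^ k /
          deriv φ (ρ * Complex.exp (θ * Complex.I))) =
      2 * Real.pi * (ρ:ℂ) ^ 2 * ∑' m, vv N p q j k m * ((ρ:ℂ) ^ 2) ^ m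

/-- prescribed signs -/
def S_REAL : Prop := ∀ (ι : Type) [Fintype ι] (v : ι → ℕ → ℂ) (δ : ℝ) (r : ℕ), 0 < δ →
  (∀ i, ∀ x : ℝ, 0 < x → x < δ → Summable fun m => v i m * (x:ℂ) ^ m) →
  r ≤ Module.finrank ℂ (Submodule.span ℂ (Set.range (Sum.elim v fun i m => conj (v i m)))) →
  ∃ (x : Fin r → ℝ) (a : ι → ℂ), StrictMono x ∧ (∀ l, 0 < x l ∧ x l < δ) ∧
    ∀ l, (∑ i, a i * ∑' m, v i m * (x l : ℂ) ^ m).re = (-1) ^ (l : ℕ)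

end Pool.Agent.Y300.LC
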