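import Pool.Agent.Y300.LC.TopH
import Pool.Agent.Y300.LC.Cls
import Pool.Agent.Y458.LC.Sol
import Pool.Agent.Y420.LC.Rel
import Pool.Agent.Y420.LC.Span
import Pool.Agent.Y420.LC.Zar
import Pool.Agent.Y50.LC.Rat
import Pool.Agent.Y50.LC.Poly
import Pool.Agent.Y151.LC.Lim
import Pool.Agent.Y151.LC.Conj
import Pool.Agent.Y931.LC.End
import Pool.Agent.Y366.LC.St2
import Pool.Agent.Y308.LC.Ana
import Pool.Agent.Y308.LC.Loc
import Pool.Agent.Y308.LC.Real

/-! Project LC (helper300): assembly of the algebraic part. -/

set_option autoImplicit false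

namespace Pool.Agent.Y300.LC

theorem sol_done : S_SOL := Pool.Agent.Y458.LC.sol_all

theorem rel_done : S_REL := Pool.Agent.Y420.LC.rel_all

theorem poly_done : S_POLY := Pool.Agent.Y50.LC.poly_all sol_done

theorem bar_done : S_BAR := Pool.Agent.Y50.LC.bar_all sol_done

theorem minor_done : S_MINOR := Pool.Agent.Y151.LC.minor_all

theorem lim_done : S_LIM := Pool.Agent.Y151.LC.lim_all minor_done

theorem span_done : S_SPAN :=
  Pool.Agent.Y420.LC.span_all sol_done rel_done (Pool.Agent.Y420.LC.chain_all sol_done rel_done)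

theorem ind_done : S_IND :=
  Pool.Agent.Y931.LC.ind_all sol_done rel_done (cls_all sol_done rel_done)
    Pool.Agent.Y50.LC.rat_all

theorem st2_done : S_ST2 := Pool.Agent.Y366.LC.st2_all sol_done rel_done poly_done lim_done

theorem core_done : S_CORE :=
  core_all poly_done lim_done span_done ind_done Pool.Agent.Y50.LC.card_all st2_done

theorem conj_done : S_CONJ :=
  Pool.Agent.Y151.LC.conj_all core_done poly_done minor_done Pool.Agent.Y420.LC.zar_all

theorem ana_done : S_ANA := Pool.Agent.Y308.LC.ana_all sol_done Pool.Agent.Y308.LC.loc_all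

theorem real_done : S_REAL := Pool.Agent.Y308.LC.real_all minor_done

end Pool.Agent.Y300.LC
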