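import Pool.Agent.Y300.LC.Stm

/-! Assembly of the algebraic core. -/

set_option autoImplicit false

open PowerSeries Finset Filter Topology MeasureTheory
open scoped ComplexConjugate

namespace Pool.Agent.Y300.LC

lemma continuous_param (hp : S_POLY) {N : ℕ} (hN : 2 ≤ N) (j m : ℕ) :
    Continuous (fun t : ℂ => A N 1 t j m) ∧ Continuous (fun t : ℂ => B N 1 t j m) := by
  obtain ⟨⟨P, hP⟩, ⟨Q, hQ⟩⟩ := hp N j m hN
  have hc : ∀ R : MvPolynomial (Fin 2) ℂ,
      Continuous fun t : ℂ => MvPolynomial.eval ![1, t] R := by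
    intro R
    have h1 : Continuous fun t : ℂ => (![1, t] : Fin 2 → ℂ) := by
      refine continuous_pi fun i => ?_
      fin_cases i
      · exact continuous_const
      · exact continuous_id
    exact (MvPolynomial.continuous_eval R).comp h1
  constructor
  · simp only [hP]; exact hc P
  · simp only [hQ]; exact hc Q

lemma continuous_wf (hp : S_POLY) {N : ℕ} (hN : 2 ≤ N) (j k m : ℕ) :
    Continuous fun t : ℂ => wf N t j k m := by
  have hc := fun j m => continuous_param hp hN j m
  unfold wf
  split_ifs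
  · exact (continuous_const.mul (hc k m).2).div_const _
  · exact (continuous_const.mul (hc _ m).2).div_const _
  · exact continuous_const.mul (hc k m).2

lemma continuous_wg (hp : S_POLY) {N : ℕ} (hN : 2 ≤ N) (j k m : ℕ) :
    Continuous fun t : ℂ => wg N t j k m := by
  have hc := fun j m => continuous_param hp hN j m
  unfold wg
  split_ifs
  · exact ((hc _ m).1.mul continuous_const).div_const _
  · exact ((hc _ m).1.mul continuous_const).div_const _
  · exact (hc _ m).1.mul continuous_const

theorem core_all (hp : S_POLY) (hl : S_LIM) (hsp : S_SPAN) (hi : S_IND) (hc : S_CARD)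
    (h2 : S_ST2) : S_CORE := by
  intro N hN
  have hN2 : 2 ≤ N := by omega
  classical
  set G : ℂ → (If N ⊕ Ig N) → ℕ → ℂ := fun t => Sum.elim (fun x m => wf N t x.1.1 x.1.2 m)
    (fun x m => wg N t x.1.1 x.1.2 m) with hG
  have hind : LinearIndependent ℂ (G 0) := by
    rw [Fintype.linearIndependent_iff]
    intro g hg
    set lf : ℕ → ℕ → ℂ := fun j k => if h : (j, k) ∈ If N then g (Sum.inl ⟨(j, k), h⟩) else 0
      with hlf
    set lg : ℕ → ℕ → ℂ := fun j k => if h : (j, k) ∈ Ig N then g (Sum.inr ⟨(j, k), h⟩) else 0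
      with hlg
    have e1 : ∀ x (hx : x ∈ If N), lf x.1 x.2 = g (Sum.inl ⟨x, hx⟩) := by
      intro x hx
      have hx' : (x.1, x.2) ∈ If N := hx
      simp only [hlf, hx', dif_pos]
    have e2 : ∀ x (hx : x ∈ Ig N), lg x.1 x.2 = g (Sum.inr ⟨x, hx⟩) := by
      intro x hx
      have hx' : (x.1, x.2) ∈ Ig N := hx
      simp only [hlg, hx', dif_pos]
    have key := hi N lf lg hN (fun m => by
      have h3 := congrFun hg m
      rw [Finset.sum_apply, Fintype.sum_sum_type] at h3
      simp only [Pi.smul_apply, smul_eq_mul, hG, Sum.elim_inl, Sum.elim_inr, Pi.zero_apply] at h3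
      refine Eq.trans ?_ h3
      rw [← Finset.sum_coe_sort (If N), ← Finset.sum_coe_sort (Ig N)]
      congr 1
      · exact Finset.sum_congr rfl fun x _ => by rw [e1 x.1 x.2]
      · exact Finset.sum_congr rfl fun x _ => by rw [e2 x.1 x.2])
    rintro (x | x)
    · have := key.1 x.1 x.2
      rwa [e1 x.1 x.2] at this
    · have := key.2 x.1 x.2
      rwa [e2 x.1 x.2] at this
  obtain ⟨t, ht, hcard⟩ := hl (If N ⊕ Ig N)
    (fun t => Submodule.span ℂ (Set.range (fam1 N t))) G
    (fun t => FiniteDimensional.span_of_finite ℂ (Set.finite_range _)) (by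
      rintro t ht (x | x)
      · exact (hsp N t hN ht).1 x.1 x.2
      · exact (hsp N t hN ht).2 x.1 x.2) (by
      rintro (x | x) m
      · exact (continuous_wf hp hN2 _ _ _).continuousAt
      · exact (continuous_wg hp hN2 _ _ _).continuousAt) hind
  rw [Fintype.card_sum, Fintype.card_coe, Fintype.card_coe, hc N hN2] at hcard
  obtain ⟨s, hs⟩ := h2 N _ t hN hcard
  exact ⟨s, 1, 1, t, hs⟩

end Pool.Agent.Y300.LC
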