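import Pool.Agent.Y300.LC.Fin

/-! Degree and linear part of the holomorphic centre. -/

set_option autoImplicit false

open Set MeasureTheory Topology Filter
open scoped NNReal ComplexConjugate

namespace Pool.Agent.Y300.LC

open Pool.Agent.H709R2 (rot field)

lemma natDegree_aeval_le (P : MvPolynomial (Fin 2) ℝ) :
    (MvPolynomial.aeval ![(Polynomial.X : Polynomial ℝ), 0] P).natDegree ≤ P.totalDegree := by
  rw [MvPolynomial.aeval_def, MvPolynomial.eval₂_eq']
  refine Polynomial.natDegree_sum_le_of_forall_le _ _ fun d hd => ?_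
  have h1 : d 0 + d 1 ≤ P.totalDegree := by
    have := MvPolynomial.le_totalDegree hd
    rw [Finsupp.sum_fintype _ _ (fun _ => rfl)] at this
    simpa [Fin.sum_univ_two] using this
  rw [Fin.prod_univ_two]
  simp only [Matrix.cons_val_zero, Matrix.cons_val_one]
  rw [Polynomial.algebraMap_eq]
  rcases Nat.eq_zero_or_pos (d 1) with h | h
  · rw [h, pow_zero, mul_one]
    exact (Polynomial.natDegree_C_mul_X_pow_le _ _).trans (by omega)
  · rw [zero_pow h.ne', mul_zero, mul_zero, Polynomial.natDegree_zero]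
    exact Nat.zero_le _

lemma eval_aeval (P : MvPolynomial (Fin 2) ℝ) (x : ℝ) :
    (MvPolynomial.aeval ![(Polynomial.X : Polynomial ℝ), 0] P).eval x =
      MvPolynomial.eval ![x, 0] P := by
  have h := MvPolynomial.map_aeval ![(Polynomial.X : Polynomial ℝ), 0] (Polynomial.evalRingHom x) P
  rw [Polynomial.coe_evalRingHom] at h
  rw [h]
  have h2 : (Polynomial.evalRingHom x).comp (algebraMap ℝ (Polynomial ℝ)) = RingHom.id ℝ := by
    ext y; simp
  rw [h2, MvPolynomial.eval]
  congr 1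
  congr 1
  funext i
  fin_cases i <;> simp

lemma max_degree {N : ℕ} (hN : 2 ≤ N) {p q : ℂ} (hq : q ≠ 0) {P Q : MvPolynomial (Fin 2) ℝ}
    (hP : P.totalDegree ≤ N + 1) (hQ : Q.totalDegree ≤ N + 1)
    (hf : ∀ z, field P Q z = eC (G0 N p q (eC.symm z))) :
    max P.totalDegree Q.totalDegree = N + 1 := by
  refine le_antisymm (max_le hP hQ) ?_
  by_contra hcon
  have hP' : P.totalDegree ≤ N := by
    have := le_max_left P.totalDegree Q.totalDegree
    omega
  have hQ' : Q.totalDegree ≤ N := by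
    have := le_max_right P.totalDegree Q.totalDegree
    omega
  have h1 : ∀ x : ℝ, eC.symm ((x, 0) : ℝ × ℝ) = (x : ℂ) := by
    intro x
    apply Complex.ext
    · rw [eC_symm_re, Complex.ofReal_re]
    · rw [eC_symm_im, Complex.ofReal_im]
  have h2 : ∀ x : ℝ, MvPolynomial.eval ![x, 0] P = -(p.im * x ^ N + q.im * x ^ (N + 1)) ∧
      MvPolynomial.eval ![x, 0] Q = x + p.re * x ^ N + q.re * x ^ (N + 1) := by
    intro x
    have h3 := hf (x, 0)
    rw [h1, eC_apply] at h3
    simp only [H709R2.field, Prod.mk.injEq] at h3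
    have h4 : G0 N p q (x : ℂ) = ((-(p.im * x ^ N + q.im * x ^ (N + 1)) : ℝ) : ℂ) +
        ((x + p.re * x ^ N + q.re * x ^ (N + 1) : ℝ) : ℂ) * Complex.I := by
      unfold G0
      conv_lhs => rw [← Complex.re_add_im p, ← Complex.re_add_im q]
      push_cast
      linear_combination (p.im * (x : ℂ) ^ N + q.im * (x : ℂ) ^ (N + 1)) * Complex.I_sq
    rw [h4] at h3
    refine ⟨h3.1.trans ?_, h3.2.trans ?_⟩
    · rw [Complex.add_re, Complex.ofReal_re, Complex.re_ofReal_mul, Complex.I_re, mul_zero,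
        add_zero]
    · rw [Complex.add_im, Complex.ofReal_im, Complex.im_ofReal_mul, Complex.I_im, mul_one,
        zero_add]
  have e1 : MvPolynomial.aeval ![(Polynomial.X : Polynomial ℝ), 0] P =
      -(Polynomial.C p.im * Polynomial.X ^ N + Polynomial.C q.im * Polynomial.X ^ (N + 1)) := by
    refine Polynomial.funext fun x => ?_
    rw [eval_aeval, (h2 x).1]
    simp
  have e2 : MvPolynomial.aeval ![(Polynomial.X : Polynomial ℝ), 0] Q =
      Polynomial.X + Polynomial.C p.re * Polynomial.X ^ N +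
        Polynomial.C q.re * Polynomial.X ^ (N + 1) := by
    refine Polynomial.funext fun x => ?_
    rw [eval_aeval, (h2 x).2]
    simp
  have f1 : (MvPolynomial.aeval ![(Polynomial.X : Polynomial ℝ), 0] P).coeff (N + 1) = 0 :=
    Polynomial.coeff_eq_zero_of_natDegree_lt (((natDegree_aeval_le P).trans hP').trans_lt
      (Nat.lt_succ_self _))
  have f2 : (MvPolynomial.aeval ![(Polynomial.X : Polynomial ℝ), 0] Q).coeff (N + 1) = 0 :=
    Polynomial.coeff_eq_zero_of_natDegree_lt (((natDegree_aeval_le Q).trans hQ').trans_lt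
      (Nat.lt_succ_self _))
  rw [e1] at f1
  rw [e2] at f2
  simp only [Polynomial.coeff_neg, Polynomial.coeff_add, Polynomial.coeff_C_mul,
    Polynomial.coeff_X_pow, Polynomial.coeff_X] at f1 f2
  have g1 : (if N + 1 = N then (1:ℝ) else 0) = 0 := if_neg (by omega)
  have g2 : (if 1 = N + 1 then (1:ℝ) else 0) = 0 := if_neg (by omega)
  rw [g1] at f1 f2
  rw [g2] at f2
  simp only [mul_zero, zero_add, if_true, mul_one, neg_eq_zero] at f1 f2
  exact hq (Complex.ext f2 f1)

lemma linear_part {N : ℕ} (hN : 2 ≤ N) {p q : ℂ} {P Q : MvPolynomial (Fin 2) ℝ}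
    (hf : ∀ z, field P Q z = eC (G0 N p q (eC.symm z))) :
    (MvPolynomial.eval ![0, 0] P = 0 ∧ MvPolynomial.eval ![0, 0] Q = 0) ∧
    MvPolynomial.eval ![0, 0] (MvPolynomial.pderiv 0 P) = 0 ∧
    MvPolynomial.eval ![0, 0] (MvPolynomial.pderiv 1 P) = -1 ∧
    MvPolynomial.eval ![0, 0] (MvPolynomial.pderiv 0 Q) = 1 ∧
    MvPolynomial.eval ![0, 0] (MvPolynomial.pderiv 1 Q) = 0 := by
  have hN0 : N ≠ 0 := by omega
  have hN1 : N - 1 ≠ 0 := by omega
  have h0 := hf 0
  rw [map_zero] at h0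
  have e0 : G0 N p q 0 = 0 := by
    unfold G0
    rw [zero_pow hN0, zero_pow (Nat.succ_ne_zero N)]
    simp
  rw [e0, map_zero] at h0
  have hd : HasDerivAt (G0 N p q) Complex.I 0 := by
    have h1 := (((hasDerivAt_id (0:ℂ)).add ((hasDerivAt_pow N (0:ℂ)).const_mul p)).add
      ((hasDerivAt_pow (N + 1) (0:ℂ)).const_mul q)).const_mul Complex.I
    have h2 : Complex.I * (1 + p * ((N : ℂ) * 0 ^ (N - 1)) +
        q * (((N + 1 : ℕ) : ℂ) * 0 ^ (N + 1 - 1))) = Complex.I := by
      rw [zero_pow hN1, Nat.add_sub_cancel, zero_pow hN0]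
      simp
    rw [h2] at h1
    exact h1
  have hz : eC.symm (0 : ℝ × ℝ) = 0 := map_zero _
  obtain ⟨L, hL, hLe⟩ := hasFDerivAt_psi (φ := G0 N p q) (z := 0) (by
    rw [hz]; exact hd.differentiableAt)
  have h5 : (field P Q) = psi (G0 N p q) := funext hf
  have h6 : ∀ v : ℝ × ℝ, fderiv ℝ (field P Q) 0 v = eC (Complex.I * eC.symm v) := by
    intro v
    rw [h5, hL.fderiv, hLe, hz, hd.deriv]
  have h8 := h6 (1, 0)
  have h9 := h6 (0, 1)
  rw [H709R2.fderiv_field] at h8 h9
  rw [eC_apply] at h8 h9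
  simp only [Complex.mul_re, Complex.mul_im, eC_symm_re, eC_symm_im, Complex.I_re, Complex.I_im,
    Prod.mk.injEq, Prod.fst_zero, Prod.snd_zero] at h8 h9
  simp only [H709R2.field, Prod.fst_zero, Prod.snd_zero, Prod.mk_eq_zero] at h0
  refine ⟨h0, ?_, ?_, ?_, ?_⟩
  · linarith [h8.1]
  · linarith [h9.1]
  · linarith [h8.2]
  · linarith [h9.2]

end Pool.Agent.Y300.LC
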