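import Pool.Agent.Y300.LC.Stm
import Pool.Agent.Y300.Final

/-! Many closed orbits of perturbations of the rotation field. -/

set_option autoImplicit false

open Set MeasureTheory Topology Filter
open scoped NNReal ComplexConjugate

namespace Pool.Agent.Y300.LC

/-- identification of the plane with `ℂ` -/
noncomputable abbrev eC : ℂ ≃L[ℝ] ℝ × ℝ := Complex.equivRealProdCLM

lemma eC_apply (w : ℂ) : eC w = (w.re, w.im) := rfl

lemma eC_symm_re (z : ℝ × ℝ) : (eC.symm z).re = z.1 := by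
  have := congrArg Prod.fst (eC.apply_symm_apply z)
  exact this

lemma eC_symm_im (z : ℝ × ℝ) : (eC.symm z).im = z.2 := by
  have := congrArg Prod.snd (eC.apply_symm_apply z)
  exact this

/-- the Hamiltonian of the rotation -/
noncomputable def Hc (z : ℝ × ℝ) : ℝ := (z.1 ^ 2 + z.2 ^ 2) / 2

lemma contDiff_Hc {n : WithTop ℕ∞} : ContDiff ℝ n Hc := by
  unfold Hc
  fun_prop

lemma fderiv_Hc (z v : ℝ × ℝ) : fderiv ℝ Hc z v = z.1 * v.1 + z.2 * v.2 := by
  have h1 : HasFDerivAt (fun z : ℝ × ℝ => z.1) (ContinuousLinearMap.fst ℝ ℝ ℝ) z := hasFDerivAt_fst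
  have h2 : HasFDerivAt (fun z : ℝ × ℝ => z.2) (ContinuousLinearMap.snd ℝ ℝ ℝ) z := hasFDerivAt_snd
  have h3 : HasFDerivAt Hc _ z := ((h1.pow 2).add (h2.pow 2)).mul_const (2:ℝ)⁻¹
  rw [h3.fderiv]
  simp
  ring

lemma ham_Hc (z : ℝ × ℝ) : ham Hc z = (-z.2, z.1) := by
  unfold ham
  rw [fderiv_Hc, fderiv_Hc]
  simp

lemma toC_pol (r θ : ℝ) : eC.symm (pol 0 r θ) = (r : ℂ) * Complex.exp (θ * Complex.I) := by
  apply Complex.ext
  · rw [eC_symm_re]
    simp [pol, ev, Complex.exp_ofReal_mul_I_re]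
  · rw [eC_symm_im]
    simp [pol, ev, Complex.exp_ofReal_mul_I_im]

lemma dot_eq (z : ℝ × ℝ) (w : ℂ) : dot z (eC w) = (conj (eC.symm z) * w).re := by
  unfold dot
  rw [Complex.mul_re, Complex.conj_re, Complex.conj_im, eC_symm_re, eC_symm_im, eC_apply]
  ring

lemma norm_sq_symm (z : ℝ × ℝ) : ‖eC.symm z‖ ^ 2 = dot z z := by
  rw [← Complex.normSq_eq_norm_sq, Complex.normSq_apply, eC_symm_re, eC_symm_im]
  rfl

lemma ovals_circ {r₁ r₂ : ℝ} {Y : ℝ × ℝ → ℝ × ℝ} {n : ℕ} {ρ : ℕ → ℝ} (h1 : 0 < r₁) (h12 : r₁ < r₂)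
    (hY : Continuous Y) (hρ : ∀ k ≤ n, ρ k ∈ Ioo r₁ r₂) (hm : ∀ k < n, ρ k < ρ (k + 1))
    (hs : ∀ k ≤ n, 0 < (-1) ^ k * ∫ θ in (0:ℝ)..(2 * Real.pi),
      dot (pol 0 (ρ k) θ) (Y (pol 0 (ρ k) θ))) :
    Ovals 0 r₁ r₂ Hc Y n (fun k => ρ k ^ 2 / 2) (fun k _ => ρ k) where
  pos := h1
  lt := h12
  hH := contDiff_Hc
  hY := hY
  hrad := by
    intro z hz
    rw [fderiv_Hc]
    have := hz.1
    simp only [sub_zero, dot] at this ⊢
    nlinarith [sq_pos_of_pos h1]
  hc := by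
    intro k hk
    have h3 := hm k hk
    have h4 := (hρ k hk.le).1
    nlinarith
  hR := fun _ _ => continuous_const
  hmem := fun k hk _ => hρ k hk
  hlev := by
    intro k hk θ
    simp only [Hc, pol, ev]
    have := Real.sin_sq_add_cos_sq θ
    simp only [Prod.fst_add, Prod.snd_add, Prod.fst_zero, Prod.snd_zero, zero_add, Prod.smul_fst,
      Prod.smul_snd, smul_eq_mul]
    nlinarith
  hsign := by
    intro k hk
    have key : ∫ θ in (0:ℝ)..(2 * Real.pi), mel 0 Hc Y (pol 0 (ρ k) θ) =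
        ∫ θ in (0:ℝ)..(2 * Real.pi), dot (pol 0 (ρ k) θ) (Y (pol 0 (ρ k) θ)) := by
      refine intervalIntegral.integral_congr fun θ _ => ?_
      simp only [mel, sub_zero]
      rw [fderiv_Hc, fderiv_Hc]
      have h4 := (hρ k hk).1
      have h5 : dot (pol 0 (ρ k) θ) (pol 0 (ρ k) θ) = ρ k ^ 2 := by
        have := dot_self_pol 0 (ρ k) θ
        rwa [sub_zero] at this
      have h6 : (pol 0 (ρ k) θ).1 * (pol 0 (ρ k) θ).1 + (pol 0 (ρ k) θ).2 * (pol 0 (ρ k) θ).2 =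
          ρ k ^ 2 := h5
      rw [h5, h6]
      unfold dot
      have h7 : ρ k ^ 2 ≠ 0 := by
        have : 0 < ρ k := h1.trans h4
        positivity
      rw [mul_div_assoc, mul_div_cancel₀ _ h7]
    rw [key]
    exact hs k hk

/-- radial clamp -/
noncomputable def clp (R : ℝ) (w : ℂ) : ℂ := ((R / max R ‖w‖ : ℝ) : ℂ) * w

lemma continuous_clp {R : ℝ} (hR : 0 < R) : Continuous (clp R) := by
  unfold clp
  have : Continuous fun w : ℂ => R / max R ‖w‖ :=
    continuous_const.div (continuous_const.max continuous_norm) fun w =>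
      (hR.trans_le (le_max_left _ _)).ne'
  exact (Complex.continuous_ofReal.comp this).mul continuous_id

lemma norm_clp_le {R : ℝ} (hR : 0 < R) (w : ℂ) : ‖clp R w‖ ≤ R := by
  unfold clp
  have h1 : 0 < max R ‖w‖ := hR.trans_le (le_max_left _ _)
  rw [norm_mul, Complex.norm_real, Real.norm_eq_abs, abs_of_pos (div_pos hR h1), div_mul_eq_mul_div,
    div_le_iff₀ h1]
  exact mul_le_mul_of_nonneg_left (le_max_right _ _) hR.le

lemma clp_eq {R : ℝ} (hR : 0 < R) {w : ℂ} (hw : ‖w‖ ≤ R) : clp R w = w := by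
  unfold clp
  rw [max_eq_left hw, div_self hR.ne']
  simp

theorem many_w {δ : ℝ} {f : ℂ → ℂ} (hf : ContinuousOn f (Metric.ball 0 δ)) {n : ℕ} {ρ : ℕ → ℝ}
    (hρ : ∀ k ≤ n, 0 < ρ k ∧ ρ k < δ) (hm : ∀ k < n, ρ k < ρ (k + 1))
    (hs : ∀ k ≤ n, 0 < (-1) ^ k * (∫ θ in (0:ℝ)..(2 * Real.pi),
      conj ((ρ k : ℂ) * Complex.exp (θ * Complex.I)) *
        f (ρ k * Complex.exp (θ * Complex.I))).re) :
    ∃ r₁ r₂ : ℝ, 0 < r₁ ∧ r₁ < r₂ ∧ r₂ < δ ∧ ∃ Y : ℝ × ℝ → ℝ × ℝ,
      (∀ z ∈ ann 0 r₁ r₂, Y z = eC (f (eC.symm z))) ∧ Many Hc Y (ann 0 r₁ r₂) n := by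
  have hmono : ∀ i j, i ≤ j → j ≤ n → ρ i ≤ ρ j := by
    intro i j hij
    induction j, hij using Nat.le_induction with
    | base => exact fun _ => le_rfl
    | succ k hk ih => exact fun hj => (ih (by omega)).trans (hm k (by omega)).le
  have h0 := hρ 0 (Nat.zero_le _)
  have hn := hρ n le_rfl
  have h0n : ρ 0 ≤ ρ n := hmono 0 n (Nat.zero_le _) le_rfl
  set r₁ := ρ 0 / 2 with hr1
  set r₂ := (ρ n + δ) / 2 with hr2
  have a1 : 0 < r₁ := by simp only [hr1]; linarith [h0.1]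
  have a2 : r₁ < r₂ := by simp only [hr1, hr2]; linarith [h0.1, hn.2]
  have a3 : r₂ < δ := by simp only [hr2]; linarith [hn.2]
  have a4 : 0 < r₂ := a1.trans a2
  set Y : ℝ × ℝ → ℝ × ℝ := fun z => eC (f (clp r₂ (eC.symm z))) with hYd
  have hball : ∀ w : ℂ, clp r₂ w ∈ Metric.ball (0:ℂ) δ := by
    intro w
    rw [mem_ball_zero_iff]
    exact (norm_clp_le a4 w).trans_lt a3
  have hYc : Continuous Y := by
    refine eC.continuous.comp ?_
    exact hf.comp_continuous ((continuous_clp a4).comp eC.symm.continuous) fun z => hball _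
  have hYe : ∀ z ∈ ann 0 r₁ r₂, Y z = eC (f (eC.symm z)) := by
    intro z hz
    simp only [hYd]
    rw [clp_eq a4]
    have h5 := norm_sq_symm z
    have h6 := hz.2
    rw [sub_zero] at h6
    rw [← h5] at h6
    exact le_of_sq_le_sq h6 a4.le
  refine ⟨r₁, r₂, a1, a2, a3, Y, hYe, Ovals.many (ovals_circ a1 a2 hYc (ρ := ρ) ?_ hm ?_)⟩
  · intro k hk
    refine ⟨?_, ?_⟩
    · have := hmono 0 k (Nat.zero_le _) hk
      simp only [hr1]; linarith [h0.1]
    · have := hmono k n hk le_rfl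
      simp only [hr2]; linarith [hn.2]
  · intro k hk
    have hk1 := hρ k hk
    have hmem : ρ k ∈ Icc r₁ r₂ := by
      refine ⟨?_, ?_⟩
      · have := hmono 0 k (Nat.zero_le _) hk
        simp only [hr1]; linarith [h0.1]
      · have := hmono k n hk le_rfl
        simp only [hr2]; linarith [hn.2]
    convert hs k hk using 2
    have hcont : Continuous fun θ : ℝ => conj ((ρ k : ℂ) * Complex.exp (θ * Complex.I)) *
        f (ρ k * Complex.exp (θ * Complex.I)) := by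
      have e1 : Continuous fun θ : ℝ => (ρ k : ℂ) * Complex.exp (θ * Complex.I) := by fun_prop
      refine (Complex.continuous_conj.comp e1).mul (hf.comp_continuous e1 fun θ => ?_)
      rw [mem_ball_zero_iff, norm_mul, Complex.norm_exp_ofReal_mul_I, mul_one, Complex.norm_real,
        Real.norm_eq_abs, abs_of_pos hk1.1]
      exact hk1.2
    have h7 := Complex.reCLM.intervalIntegral_comp_comm (hcont.intervalIntegrable (μ := volume) 0 (2 * Real.pi))
    simp only [Complex.reCLM_apply] at h7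
    rw [← h7]
    refine intervalIntegral.integral_congr fun θ _ => ?_
    rw [hYe _ (pol_mem_ann a1 hmem θ), dot_eq, toC_pol]

end Pool.Agent.Y300.LC
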