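import Pool.Agent.Y300.LC.Dyn1

/-! Transport to the plane of the polynomial system. -/

set_option autoImplicit false

open Set MeasureTheory Topology Filter
open scoped NNReal ComplexConjugate

namespace Pool.Agent.Y300.LC

open Pool.Agent.H709R2 (rot)

/-- the holomorphic field -/
noncomputable def G0 (N : ℕ) (p q z : ℂ) : ℂ := Complex.I * (z + p * z ^ N + q * z ^ (N + 1))

/-- the perturbed and rotated field in the plane -/
noncomputable def PV (N : ℕ) (p q : ℂ) (g : ℂ → ℂ) (κ α : ℝ) (z : ℝ × ℝ) : ℝ × ℝ :=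
  rot α (eC (G0 N p q (eC.symm z) + κ * g (eC.symm z)))

lemma rot_eC (α : ℝ) (w : ℂ) : rot α (eC w) = eC (Complex.exp (α * Complex.I) * w) := by
  unfold rot
  rw [eC_apply, eC_apply]
  simp only [Complex.mul_re, Complex.mul_im, Complex.exp_ofReal_mul_I_re,
    Complex.exp_ofReal_mul_I_im]
  ext
  · simp only
  · simp only
    ring

lemma ham_eC (z : ℝ × ℝ) : ham Hc z = eC (Complex.I * eC.symm z) := by
  rw [ham_Hc, eC_apply]
  simp [Complex.mul_re, Complex.mul_im, eC_symm_re, eC_symm_im]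

/-- the perturbation in the linearising coordinate -/
noncomputable def ff (φ g : ℂ → ℂ) (w : ℂ) : ℂ := g (φ w) / deriv φ w

lemma analyticAt_of_lin {N : ℕ} {p q : ℂ} {δ : ℝ} {φ : ℂ → ℂ} (h : Lin N p q δ φ) {w : ℂ}
    (hw : w ∈ Metric.ball (0:ℂ) δ) : AnalyticAt ℂ φ w :=
  h.diff.analyticAt (Metric.isOpen_ball.mem_nhds hw)

lemma contDiffAt_ff {N : ℕ} {p q : ℂ} {δ : ℝ} {φ g : ℂ → ℂ} (h : Lin N p q δ φ)
    (hg : ContDiff ℝ 1 g) {w : ℂ} (hw : w ∈ Metric.ball (0:ℂ) δ) : ContDiffAt ℝ 1 (ff φ g) w := by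
  have ha := analyticAt_of_lin h hw
  have h1 : ContDiffAt ℝ 1 φ w := ha.contDiffAt.restrict_scalars ℝ
  have h2 : ContDiffAt ℝ 1 (deriv φ) w := ha.deriv.contDiffAt.restrict_scalars ℝ
  have h3 : ContDiffAt ℝ 1 (fun w => g (φ w)) w := hg.contDiffAt.comp w h1
  have h4 := h3.mul (h2.inv (h.der w hw))
  refine h4.congr_of_eventuallyEq (Filter.Eventually.of_forall fun w => ?_)
  simp only [ff, Pi.mul_apply, Pi.inv_apply, div_eq_mul_inv]

/-- the coordinate change as a map of the plane -/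
noncomputable def psi (φ : ℂ → ℂ) (z : ℝ × ℝ) : ℝ × ℝ := eC (φ (eC.symm z))

lemma hasFDerivAt_psi {φ : ℂ → ℂ} {z : ℝ × ℝ} (h : DifferentiableAt ℂ φ (eC.symm z)) :
    ∃ L : ℝ × ℝ →L[ℝ] ℝ × ℝ, HasFDerivAt (psi φ) L z ∧
      ∀ v, L v = eC (deriv φ (eC.symm z) * eC.symm v) := by
  have h1 : HasFDerivAt φ _ (eC.symm z) := h.hasDerivAt.hasFDerivAt.restrictScalars ℝ
  have h2 : HasFDerivAt (fun z => φ (eC.symm z)) _ z :=
    h1.comp z (eC.symm : ℝ × ℝ →L[ℝ] ℂ).hasFDerivAt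
  have h3 := ((eC : ℂ →L[ℝ] ℝ × ℝ).hasFDerivAt (x := φ (eC.symm z))).comp z h2
  refine ⟨_, h3, fun v => ?_⟩
  simp [mul_comm]

lemma mem_ball_of_ann {δ r₁ r₂ : ℝ} (h2 : 0 ≤ r₂) (h3 : r₂ < δ) {z : ℝ × ℝ}
    (hz : z ∈ ann 0 r₁ r₂) : eC.symm z ∈ Metric.ball (0:ℂ) δ := by
  rw [mem_ball_zero_iff]
  have h5 := norm_sq_symm z
  have h6 := hz.2
  rw [sub_zero] at h6
  rw [← h5] at h6
  exact (le_of_sq_le_sq h6 h2).trans_lt h3

theorem dyn2 {N : ℕ} {p q : ℂ} {δ : ℝ} {φ g : ℂ → ℂ} (h : Lin N p q δ φ)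
    (hg : ContDiff ℝ 1 g) {n : ℕ} {ρ : ℕ → ℝ}
    (hρ : ∀ k ≤ n, 0 < ρ k ∧ ρ k < δ) (hm : ∀ k < n, ρ k < ρ (k + 1))
    (hs : ∀ k ≤ n, 0 < (-1) ^ k * (∫ θ in (0:ℝ)..(2 * Real.pi),
      conj ((ρ k : ℂ) * Complex.exp (θ * Complex.I)) *
        ff φ g (ρ k * Complex.exp (θ * Complex.I))).re) :
    ∃ ε > 0, ∀ κ : ℝ, 0 < κ → κ ≤ ε → ∀ᶠ α in 𝓝 (0:ℝ),
      (n : ℕ∞) ≤ {C | ClosedOrbit (PV N p q g κ α) C ∧
        C ⊆ eC '' (φ '' Metric.ball 0 δ)}.encard := by
  have hfc : ContinuousOn (ff φ g) (Metric.ball 0 δ) := fun w hw =>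
    (contDiffAt_ff h hg hw).continuousAt.continuousWithinAt
  obtain ⟨r₁, r₂, h1, h12, h2, Y, hY, ε, hε, hM⟩ := many_w hfc hρ hm hs
  have hr2 : 0 < r₂ := h1.trans h12
  set K := ann 0 r₁ r₂ with hK
  have hKc : IsCompact K := isCompact_ann hr2.le
  have hKb : ∀ z ∈ K, eC.symm z ∈ Metric.ball (0:ℂ) δ := fun z hz => mem_ball_of_ann hr2.le h2 hz
  refine ⟨ε, hε, fun κ hκ hκε => ?_⟩
  -- the field in the `w` plane
  set V : ℝ × ℝ → ℝ × ℝ := fun z => ham Hc z + κ • eC (ff φ g (eC.symm z)) with hV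
  have hham : ContDiff ℝ 1 (ham Hc) := by
    have : ham Hc = fun z => (-z.2, z.1) := by funext z; exact ham_Hc z
    rw [this]
    fun_prop
  have hY0 : ∀ z : ℝ × ℝ, eC.symm z ∈ Metric.ball (0:ℂ) δ →
      ContDiffAt ℝ 1 (fun z : ℝ × ℝ => eC (ff φ g (eC.symm z))) z := by
    intro z hz
    exact (eC : ℂ →L[ℝ] ℝ × ℝ).contDiff.contDiffAt.comp z
      ((contDiffAt_ff h hg hz).comp z (eC.symm : ℝ × ℝ →L[ℝ] ℂ).contDiff.contDiffAt)
  have hVc : ∀ z ∈ K, ContDiffAt ℝ 1 V z := fun z hz =>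
    hham.contDiffAt.add ((hY0 z (hKb z hz)).const_smul κ)
  set Yα : ℝ → ℝ × ℝ → ℝ × ℝ := fun α z => κ⁻¹ • (rot α (V z) - ham Hc z) with hYα
  have hrot : ∀ α z, ham Hc z + κ • Yα α z = rot α (V z) := by
    intro α z
    simp only [hYα]
    rw [smul_smul, mul_inv_cancel₀ hκ.ne', one_smul]
    abel
  have hrc : ∀ α, ∀ z ∈ K, ContDiffAt ℝ 1 (fun z => rot α (V z)) z := by
    intro α z hz
    unfold H709R2.rot
    have h1 := (hVc z hz).fst
    have h2 := (hVc z hz).snd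
    exact ((contDiffAt_const.mul h1).sub (contDiffAt_const.mul h2)).prodMk
        ((contDiffAt_const.mul h1).add (contDiffAt_const.mul h2))
  have hev : ∀ᶠ α : ℝ in 𝓝 0, ∀ z ∈ K, ‖Yα α z - Y z‖ < ε := by
    have hev' : ∀ᶠ α : ℝ in 𝓝 0, ∀ z ∈ K, ‖Yα α z - eC (ff φ g (eC.symm z))‖ < ε := by
      refine hKc.eventually_forall_of_forall_eventually fun z hz => ?_
      have hc1 : ContinuousAt (fun q : ℝ × (ℝ × ℝ) => Yα q.1 q.2) ((0:ℝ), z) := by
        have e1 : ContinuousAt (fun q : ℝ × (ℝ × ℝ) => V q.2) ((0:ℝ), z) :=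
          ContinuousAt.comp (f := Prod.snd) (g := V) (hVc z hz).continuousAt continuousAt_snd
        have e2 : ContinuousAt (fun q : ℝ × (ℝ × ℝ) => rot q.1 (V q.2)) ((0:ℝ), z) := by
          have e3 : Continuous fun q : ℝ × (ℝ × ℝ) => rot q.1 q.2 :=
            continuous_rot_prod (f := fun z => z) continuous_id
          exact ContinuousAt.comp (f := fun q : ℝ × (ℝ × ℝ) => (q.1, V q.2))
            (g := fun q : ℝ × (ℝ × ℝ) => rot q.1 q.2) e3.continuousAt
            (continuousAt_fst.prodMk e1)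
        exact (e2.sub (hham.continuous.comp continuous_snd).continuousAt).const_smul κ⁻¹
      have hc2 : ContinuousAt (fun q : ℝ × (ℝ × ℝ) => eC (ff φ g (eC.symm q.2))) ((0:ℝ), z) :=
        ContinuousAt.comp (f := Prod.snd) (g := fun z : ℝ × ℝ => eC (ff φ g (eC.symm z)))
          (hY0 z (hKb z hz)).continuousAt continuousAt_snd
      have hc := (hc1.sub hc2).norm
      have h3 : Yα 0 z = eC (ff φ g (eC.symm z)) := by
        simp only [hYα, rot_zero, hV]
        rw [add_sub_cancel_left, smul_smul, inv_mul_cancel₀ hκ.ne', one_smul]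
      have h4 : ‖Yα ((0:ℝ), z).1 ((0:ℝ), z).2 - eC (ff φ g (eC.symm ((0:ℝ), z).2))‖ < ε := by
        simp only [h3, sub_self, norm_zero]
        exact hε
      exact Filter.Tendsto.eventually_lt_const h4 hc
    filter_upwards [hev'] with α hα z hz
    rw [hY z hz]
    exact hα z hz
  filter_upwards [hev] with α hα
  have h3 := hM Hc (Yα α) κ (fun z _ => contDiff_Hc.contDiffAt)
    (fun z hz => ((hrc α z hz).sub hham.contDiffAt).const_smul _)
    (fun z _ => by rw [sub_self, abs_zero]; exact hε.le)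
    (fun z _ => by rw [sub_self, norm_zero]; exact hε.le)
    (fun z hz => (hα z hz).le) hκ hκε
  have e : (fun z => ham Hc z + κ • Yα α z) = fun z => rot α (V z) := by
    funext z; exact hrot α z
  rw [e] at h3
  refine h3.trans ?_
  have hinj : InjOn (psi φ) K := by
    intro z hz z' hz' hzz
    unfold psi at hzz
    exact eC.symm.injective (h.inj (hKb z hz) (hKb z' hz') (eC.injective hzz))
  refine Set.encard_le_encard_of_injOn (f := fun C => psi φ '' C) ?_ ?_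
  · rintro C ⟨h4, h5⟩
    refine ⟨?_, ?_⟩
    · refine closedOrbit_transport (Z := fun z => rot α (V z)) (K := K) (g := fun _ => 1) ?_
        continuousOn_const (Or.inl fun _ _ => one_pos) ?_ hinj h4 h5
      · intro z hz
        obtain ⟨L, hL, -⟩ := hasFDerivAt_psi ((analyticAt_of_lin h (hKb z hz)).differentiableAt)
        exact hL.differentiableAt
      · intro z hz
        obtain ⟨L, hL, hLe⟩ := hasFDerivAt_psi ((analyticAt_of_lin h (hKb z hz)).differentiableAt)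
        rw [hL.fderiv, hLe, one_smul]
        unfold PV psi
        simp only [eC.symm_apply_apply]
        have e1 : V z = eC (Complex.I * eC.symm z + κ * ff φ g (eC.symm z)) := by
          simp only [hV]
          rw [ham_eC, map_add]
          congr 1
          rw [← Complex.real_smul, map_smul]
        rw [e1, rot_eC, rot_eC, eC.symm_apply_apply]
        congr 1
        set w := eC.symm z with hw
        have h6 := h.eq w (hKb z hz)
        have h7 := h.der w (hKb z hz)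
        unfold G0 ff
        have h8 : deriv φ w * (g (φ w) / deriv φ w) = g (φ w) := by field_simp
        calc deriv φ w * (Complex.exp (α * Complex.I) *
              (Complex.I * w + κ * (g (φ w) / deriv φ w)))
            = Complex.exp (α * Complex.I) * (Complex.I * (w * deriv φ w) +
              κ * (deriv φ w * (g (φ w) / deriv φ w))) := by ring
          _ = _ := by rw [h6, h8]
    · rintro _ ⟨z, hz, rfl⟩
      exact ⟨φ (eC.symm z), ⟨_, hKb z (h5 hz), rfl⟩, rfl⟩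
  · rintro C ⟨-, h3⟩ C' ⟨-, h3'⟩ hCC
    simp only at hCC
    exact (hinj.image_eq_image_iff h3 h3').1 hCC

end Pool.Agent.Y300.LC
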