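import Pool.Agent.Y300.LC.Dyn2

/-! Polynomial systems with many limit cycles near a holomorphic centre. -/

set_option autoImplicit false

open Set MeasureTheory Topology Filter
open scoped NNReal ComplexConjugate

namespace Pool.Agent.Y300.LC

open Pool.Agent.H709R2 (rot field)

/-- complex polynomial functions of two real variables of degree at most `d` -/
def IsPoly (d : ℕ) (f : ℝ × ℝ → ℂ) : Prop :=
  ∃ P Q : MvPolynomial (Fin 2) ℝ, P.totalDegree ≤ d ∧ Q.totalDegree ≤ d ∧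
    ∀ z, field P Q z = eC (f z)

lemma isPoly_const (d : ℕ) (c : ℂ) : IsPoly d fun _ => c :=
  ⟨MvPolynomial.C c.re, MvPolynomial.C c.im, by simp, by simp, fun z => by
    simp [H709R2.field, eC_apply]⟩

lemma isPoly_id : IsPoly 1 fun z => eC.symm z :=
  ⟨MvPolynomial.X 0, MvPolynomial.X 1, by simp, by simp, fun z => by
    simp [H709R2.field]⟩

lemma isPoly_conj : IsPoly 1 fun z => conj (eC.symm z) :=
  ⟨MvPolynomial.X 0, -MvPolynomial.X 1, by simp, by simp [MvPolynomial.totalDegree_neg], fun z => by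
    rw [eC_apply]
    simp [H709R2.field, eC_symm_re, eC_symm_im]⟩

lemma IsPoly.mono {a b : ℕ} (h : a ≤ b) {f : ℝ × ℝ → ℂ} (hf : IsPoly a f) : IsPoly b f := by
  obtain ⟨P, Q, hP, hQ, h1⟩ := hf
  exact ⟨P, Q, hP.trans h, hQ.trans h, h1⟩

lemma IsPoly.add {d : ℕ} {f g : ℝ × ℝ → ℂ} (hf : IsPoly d f) (hg : IsPoly d g) :
    IsPoly d fun z => f z + g z := by
  obtain ⟨P, Q, hP, hQ, h1⟩ := hf
  obtain ⟨P', Q', hP', hQ', h1'⟩ := hg
  refine ⟨P + P', Q + Q', (MvPolynomial.totalDegree_add _ _).trans (max_le hP hP'),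
    (MvPolynomial.totalDegree_add _ _).trans (max_le hQ hQ'), fun z => ?_⟩
  rw [map_add, ← h1, ← h1']
  simp [H709R2.field]

lemma IsPoly.mul {a b : ℕ} {f g : ℝ × ℝ → ℂ} (hf : IsPoly a f) (hg : IsPoly b g) :
    IsPoly (a + b) fun z => f z * g z := by
  obtain ⟨P, Q, hP, hQ, h1⟩ := hf
  obtain ⟨P', Q', hP', hQ', h1'⟩ := hg
  have hm : ∀ {A B : MvPolynomial (Fin 2) ℝ}, A.totalDegree ≤ a → B.totalDegree ≤ b →
      (A * B).totalDegree ≤ a + b := fun h h' =>
    (MvPolynomial.totalDegree_mul _ _).trans (add_le_add h h')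
  refine ⟨P * P' - Q * Q', P * Q' + Q * P',
    (MvPolynomial.totalDegree_sub _ _).trans (max_le (hm hP hP') (hm hQ hQ')),
    (MvPolynomial.totalDegree_add _ _).trans (max_le (hm hP hQ') (hm hQ hP')), fun z => ?_⟩
  have e1 := h1 z
  have e2 := h1' z
  rw [eC_apply] at e1 e2 ⊢
  simp only [H709R2.field, Prod.mk.injEq] at e1 e2
  simp only [H709R2.field, Complex.mul_re, Complex.mul_im, ← e1.1, ← e1.2, ← e2.1, ← e2.2]
  simp

lemma IsPoly.pow {a : ℕ} {f : ℝ × ℝ → ℂ} (hf : IsPoly a f) (k : ℕ) :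
    IsPoly (a * k) fun z => f z ^ k := by
  induction k with
  | zero => simpa using isPoly_const 0 1
  | succ k ih =>
    have := ih.mul hf
    rw [show a * (k + 1) = a * k + a by ring]
    simpa [pow_succ] using this

lemma isPoly_sum {ι : Type*} (s : Finset ι) {d : ℕ} {f : ι → ℝ × ℝ → ℂ}
    (h : ∀ i ∈ s, IsPoly d (f i)) : IsPoly d fun z => ∑ i ∈ s, f i z := by
  classical
  induction s using Finset.induction_on with
  | empty => simpa using isPoly_const d 0
  | insert i s hi ih =>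
    simp only [Finset.sum_insert hi]
    exact (h i (Finset.mem_insert_self _ _)).add
      (ih fun j hj => h j (Finset.mem_insert_of_mem hj))

/-- the perturbation with given coefficients -/
noncomputable def gg (N : ℕ) (a : ℕ × ℕ → ℂ) (z : ℂ) : ℂ :=
  ∑ x ∈ J N, a x * (z ^ x.1 * conj z ^ x.2)

lemma contDiff_gg (N : ℕ) (a : ℕ × ℕ → ℂ) : ContDiff ℝ 1 (gg N a) := by
  unfold gg
  have hc : ContDiff ℝ 1 (fun z : ℂ => conj z) := Complex.conjCLE.contDiff
  exact ContDiff.sum fun x _ => contDiff_const.mul ((contDiff_id.pow _).mul (hc.pow _))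

lemma isPoly_gg (N : ℕ) (a : ℕ × ℕ → ℂ) : IsPoly (N + 1) fun z => gg N a (eC.symm z) := by
  unfold gg
  refine isPoly_sum _ fun x hx => ?_
  have h1 : x.1 + x.2 ≤ N + 1 := (Finset.mem_filter.1 hx).2
  have h2 := (isPoly_id.pow x.1).mul (isPoly_conj.pow x.2)
  have h3 := (isPoly_const 0 (a x)).mul h2
  exact h3.mono (by omega)

lemma isPoly_G0 {N : ℕ} (p q : ℂ) : IsPoly (N + 1) fun z => G0 N p q (eC.symm z) := by
  unfold G0
  have h1 := (isPoly_id.mono (show 1 ≤ N + 1 by omega)).add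
    (((isPoly_const 0 p).mul (isPoly_id.pow N)).mono (show 0 + 1 * N ≤ N + 1 by omega))
  have h2 := h1.add
    (((isPoly_const 0 q).mul (isPoly_id.pow (N + 1))).mono (show 0 + 1 * (N + 1) ≤ N + 1 by omega))
  exact ((isPoly_const 0 Complex.I).mul h2).mono (by omega)

/-- the set of all closed orbits -/
def cO (P Q : MvPolynomial (Fin 2) ℝ) : Set (Set (ℝ × ℝ)) := {C | ClosedOrbit (field P Q) C}

/-- limit cycles -/
def lC (P Q : MvPolynomial (Fin 2) ℝ) : Set (Set (ℝ × ℝ)) :=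
  {C | C ∈ cO P Q ∧ ∃ ε : ℝ, 0 < ε ∧ ∀ D ∈ cO P Q, D ≠ C → ∀ x ∈ D, ∀ y ∈ C, ε ≤ dist x y}

lemma abs_coeff_le {S : Finset (Fin 2 →₀ ℕ)} {P : MvPolynomial (Fin 2) ℝ} (hS : P.support ⊆ S)
    (d : Fin 2 →₀ ℕ) : |P.coeff d| ≤ ∑ e ∈ S, |P.coeff e| := by
  by_cases h : d ∈ S
  · exact Finset.single_le_sum (f := fun e => |P.coeff e|) (fun _ _ => abs_nonneg _) h
  · have : P.coeff d = 0 := by
      by_contra h1
      exact h (hS (MvPolynomial.mem_support_iff.2 h1))
    rw [this, abs_zero]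
    exact Finset.sum_nonneg fun _ _ => abs_nonneg _

theorem dyn3 {N : ℕ} {p q : ℂ} {δ : ℝ} {φ : ℂ → ℂ} (h : Lin N p q δ φ) (a : ℕ × ℕ → ℂ)
    {n : ℕ} {ρ : ℕ → ℝ} (hρ : ∀ k ≤ n, 0 < ρ k ∧ ρ k < δ) (hm : ∀ k < n, ρ k < ρ (k + 1))
    (hs : ∀ k ≤ n, 0 < (-1) ^ k * (∫ θ in (0:ℝ)..(2 * Real.pi),
      conj ((ρ k : ℂ) * Complex.exp (θ * Complex.I)) *
        ff φ (gg N a) (ρ k * Complex.exp (θ * Complex.I))).re)
    {P₀ Q₀ : MvPolynomial (Fin 2) ℝ} (hP₀ : P₀.totalDegree ≤ N + 1) (hQ₀ : Q₀.totalDegree ≤ N + 1)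
    (hf₀ : ∀ z, field P₀ Q₀ z = eC (G0 N p q (eC.symm z))) {η : ℝ} (hη : 0 < η) :
    ∃ P Q : MvPolynomial (Fin 2) ℝ, P.totalDegree ≤ N + 1 ∧ Q.totalDegree ≤ N + 1 ∧
      (∀ d, |P.coeff d - P₀.coeff d| < η) ∧ (∀ d, |Q.coeff d - Q₀.coeff d| < η) ∧
      (n : ℕ∞) ≤ {C | C ∈ lC P Q ∧ C ⊆ eC '' (φ '' Metric.ball 0 δ)}.encard := by
  rcases Nat.eq_zero_or_pos n with rfl | hn
  · exact ⟨P₀, Q₀, hP₀, hQ₀, fun d => by rw [sub_self, abs_zero]; exact hη,
      fun d => by rw [sub_self, abs_zero]; exact hη, by simp⟩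
  obtain ⟨Pg, Qg, hPg, hQg, hfg⟩ := isPoly_gg N a
  obtain ⟨ε, hε, hD⟩ := dyn2 h (contDiff_gg N a) hρ hm hs
  classical
  set S := P₀.support ∪ Q₀.support ∪ Pg.support ∪ Qg.support with hS
  set M : ℝ := 1 + (∑ e ∈ S, |P₀.coeff e| + ∑ e ∈ S, |Q₀.coeff e| + ∑ e ∈ S, |Pg.coeff e| +
    ∑ e ∈ S, |Qg.coeff e|) with hM
  have n1 : ∀ P : MvPolynomial (Fin 2) ℝ, 0 ≤ ∑ e ∈ S, |P.coeff e| := fun P =>
    Finset.sum_nonneg fun _ _ => abs_nonneg _
  have b1 : ∀ d, |P₀.coeff d| ≤ M := fun d => (abs_coeff_le (S := S) (by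
    rw [hS]; intro x hx; simp only [Finset.mem_union]; tauto) d).trans (by
      have := n1 P₀; have := n1 Q₀; have := n1 Pg; have := n1 Qg
      rw [hM]; linarith)
  have b2 : ∀ d, |Q₀.coeff d| ≤ M := fun d => (abs_coeff_le (S := S) (by
    rw [hS]; intro x hx; simp only [Finset.mem_union]; tauto) d).trans (by
      have := n1 P₀; have := n1 Q₀; have := n1 Pg; have := n1 Qg
      rw [hM]; linarith)
  have b3 : ∀ d, |Pg.coeff d| ≤ M := fun d => (abs_coeff_le (S := S) (by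
    rw [hS]; intro x hx; simp only [Finset.mem_union]; tauto) d).trans (by
      have := n1 P₀; have := n1 Q₀; have := n1 Pg; have := n1 Qg
      rw [hM]; linarith)
  have b4 : ∀ d, |Qg.coeff d| ≤ M := fun d => (abs_coeff_le (S := S) (by
    rw [hS]; intro x hx; simp only [Finset.mem_union]; tauto) d).trans (by
      have := n1 P₀; have := n1 Q₀; have := n1 Pg; have := n1 Qg
      rw [hM]; linarith)
  have hM1 : 1 ≤ M := by
    have := n1 P₀; have := n1 Q₀; have := n1 Pg; have := n1 Qg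
    rw [hM]; linarith
  have hM0 : 0 < M := by linarith
  set κ : ℝ := min ε (min 1 (η / (4 * M))) with hκd
  have hκ : 0 < κ := lt_min hε (lt_min one_pos (by positivity))
  have hκε : κ ≤ ε := min_le_left _ _
  have hκ1 : κ ≤ 1 := (min_le_right _ _).trans (min_le_left _ _)
  have hκ2 : κ * M ≤ η / 4 := by
    have : κ ≤ η / (4 * M) := (min_le_right _ _).trans (min_le_right _ _)
    calc κ * M ≤ η / (4 * M) * M := mul_le_mul_of_nonneg_right this hM0.le
      _ = η / 4 := by field_simp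
  set P₁ := P₀ + κ • Pg with hP₁
  set Q₁ := Q₀ + κ • Qg with hQ₁
  have hP₁' : P₁.totalDegree ≤ N + 1 := (MvPolynomial.totalDegree_add _ _).trans
    (max_le hP₀ ((MvPolynomial.totalDegree_smul_le _ _).trans hPg))
  have hQ₁' : Q₁.totalDegree ≤ N + 1 := (MvPolynomial.totalDegree_add _ _).trans
    (max_le hQ₀ ((MvPolynomial.totalDegree_smul_le _ _).trans hQg))
  have hf₁ : ∀ z, field P₁ Q₁ z = eC (G0 N p q (eC.symm z) + κ * gg N a (eC.symm z)) := by
    intro z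
    have e1 := hf₀ z
    have e2 := hfg z
    have e3 : field P₁ Q₁ z = field P₀ Q₀ z + κ • field Pg Qg z := by
      simp [H709R2.field, hP₁, hQ₁, MvPolynomial.smul_eval]
    rw [e3, e1, e2, map_add]
    congr 1
    rw [← Complex.real_smul, map_smul]
  have hPV : ∀ α : ℝ, (fun z => rot α (field P₁ Q₁ z)) = PV N p q (gg N a) κ α := by
    intro α
    funext z
    rw [hf₁]
    rfl
  have hev := hD κ hκ hκε
  have hne : P₁ ≠ 0 ∨ Q₁ ≠ 0 := by
    by_contra hcon
    push Not at hcon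
    have h1 := hev.self_of_nhds
    have h2 : PV N p q (gg N a) κ 0 = fun _ => 0 := by
      rw [← hPV 0]
      funext z
      rw [rot_zero, hcon.1, hcon.2]
      simp [H709R2.field]
    rw [h2] at h1
    have h3 : {C | ClosedOrbit (fun _ : ℝ × ℝ => (0 : ℝ × ℝ)) C ∧
        C ⊆ eC '' (φ '' Metric.ball 0 δ)} = ∅ := by
      ext C
      simp [not_closedOrbit_zero]
    rw [h3, encard_empty] at h1
    have h4 : n ≤ 0 := by exact_mod_cast h1
    omega
  have hae := H709U.ae_finite H709U.main hP₁' hQ₁' hne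
  have hdense := Measure.dense_of_ae hae
  have hball : ∀ᶠ α : ℝ in 𝓝 0, |α| < η / (8 * M) := by
    have := Metric.ball_mem_nhds (0:ℝ) (show 0 < η / (8 * M) by positivity)
    filter_upwards [this] with α hα
    rwa [Metric.mem_ball, dist_zero_right, Real.norm_eq_abs] at hα
  obtain ⟨U, hU, hUo, hU0⟩ := eventually_nhds_iff.1 (hev.and hball)
  obtain ⟨α, hα1, hα2⟩ := hdense.exists_mem_open hUo ⟨0, hU0⟩
  obtain ⟨hc, hαs⟩ := hU α hα2
  have hfin : (H709U.Cl P₁ Q₁ α).Finite := hα1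
  set P' : MvPolynomial (Fin 2) ℝ := Real.cos α • P₁ - Real.sin α • Q₁ with hP'd
  set Q' : MvPolynomial (Fin 2) ℝ := Real.sin α • P₁ + Real.cos α • Q₁ with hQ'd
  have hfield' : field P' Q' = fun z => rot α (field P₁ Q₁ z) := by
    funext z
    simp [H709R2.field, H709R2.rot, hP'd, hQ'd, MvPolynomial.smul_eval]
  have hset : {C | ClosedOrbit (field P' Q') C} = H709U.Cl P₁ Q₁ α := by
    rw [hfield']
    rfl
  have hfin' : {C | ClosedOrbit (field P' Q') C}.Finite := by rw [hset]; exact hfin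
  have hcos : |Real.cos α - 1| ≤ |α| := by
    have := Real.abs_cos_sub_cos_le α 0
    rwa [Real.cos_zero, sub_zero] at this
  have hsin : |Real.sin α| ≤ |α| := Real.abs_sin_le_abs
  have hαM : |α| * M ≤ η / 8 := by
    calc |α| * M ≤ η / (8 * M) * M := mul_le_mul_of_nonneg_right hαs.le hM0.le
      _ = η / 8 := by field_simp
  have hcl : ∀ c s x y x' y' x₀ : ℝ, |c - 1| ≤ |α| → |s| ≤ |α| → |x| ≤ M → |y| ≤ M → |x'| ≤ M →
      |y'| ≤ M → x₀ = x → |c * (x + κ * x') + s * (y + κ * y') - x₀| < η := by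
    intro c s x y x' y' x₀ h1 h2 h3 h4 h5 h6 h7
    rw [h7]
    have e1 : c * (x + κ * x') + s * (y + κ * y') - x =
        (c - 1) * (x + κ * x') + κ * x' + s * (y + κ * y') := by ring
    have e2 : |x + κ * x'| ≤ 2 * M := by
      refine (abs_add_le _ _).trans ?_
      rw [abs_mul, abs_of_pos hκ]
      nlinarith [abs_nonneg x']
    have e3 : |y + κ * y'| ≤ 2 * M := by
      refine (abs_add_le _ _).trans ?_
      rw [abs_mul, abs_of_pos hκ]
      nlinarith [abs_nonneg y']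
    have e4 : |(c - 1) * (x + κ * x')| ≤ η / 4 := by
      rw [abs_mul]
      calc |c - 1| * |x + κ * x'| ≤ |α| * (2 * M) := mul_le_mul h1 e2 (abs_nonneg _) (abs_nonneg _)
        _ ≤ η / 4 := by linarith
    have e5 : |s * (y + κ * y')| ≤ η / 4 := by
      rw [abs_mul]
      calc |s| * |y + κ * y'| ≤ |α| * (2 * M) := mul_le_mul h2 e3 (abs_nonneg _) (abs_nonneg _)
        _ ≤ η / 4 := by linarith
    have e6 : |κ * x'| ≤ η / 4 := by
      rw [abs_mul, abs_of_pos hκ]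
      exact (mul_le_mul_of_nonneg_left h5 hκ.le).trans hκ2
    rw [e1]
    calc _ ≤ |(c - 1) * (x + κ * x')| + |κ * x'| + |s * (y + κ * y')| :=
          (abs_add_le _ _).trans (add_le_add (abs_add_le _ _) le_rfl)
      _ < η := by linarith
  refine ⟨P', Q', ?_, ?_, ?_, ?_, ?_⟩
  · refine (MvPolynomial.totalDegree_sub _ _).trans (max_le ?_ ?_)
    · exact (MvPolynomial.totalDegree_smul_le _ _).trans hP₁'
    · exact (MvPolynomial.totalDegree_smul_le _ _).trans hQ₁'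
  · refine (MvPolynomial.totalDegree_add _ _).trans (max_le ?_ ?_)
    · exact (MvPolynomial.totalDegree_smul_le _ _).trans hP₁'
    · exact (MvPolynomial.totalDegree_smul_le _ _).trans hQ₁'
  · intro d
    have := hcl (Real.cos α) (-Real.sin α) (P₀.coeff d) (Q₀.coeff d) (Pg.coeff d) (Qg.coeff d)
      (P₀.coeff d) hcos (by rwa [abs_neg]) (b1 d) (b2 d) (b3 d) (b4 d) rfl
    simp only [hP'd, hP₁, hQ₁, MvPolynomial.coeff_sub, MvPolynomial.coeff_smul,
      MvPolynomial.coeff_add, smul_eq_mul]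
    convert this using 2
    ring
  · intro d
    have := hcl (Real.cos α) (Real.sin α) (Q₀.coeff d) (P₀.coeff d) (Qg.coeff d) (Pg.coeff d)
      (Q₀.coeff d) hcos hsin (b2 d) (b1 d) (b4 d) (b3 d) rfl
    simp only [hQ'd, hP₁, hQ₁, MvPolynomial.coeff_smul,
      MvPolynomial.coeff_add, smul_eq_mul]
    convert this using 2
    ring
  · rw [← hPV α, ← hfield'] at hc
    refine hc.trans (Set.encard_le_encard ?_)
    rintro C ⟨h1, h2⟩
    have hC1 : ContDiff ℝ 1 (field P' Q') :=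
      (H709R2.contDiff_evalPoly P').prodMk (H709R2.contDiff_evalPoly Q')
    obtain ⟨e, he, hd⟩ := isolated hC1 hfin' h1
    exact ⟨⟨h1, e, he, fun D hD => hd D hD⟩, h2⟩

end Pool.Agent.Y300.LC
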