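import Pool.Agent.Y300.LC.Dyn3
import Pool.Agent.H709R2.Smooth4

/-! Assembly: cyclicity of the holomorphic centres. -/

set_option autoImplicit false

open Set MeasureTheory Topology Filter
open scoped NNReal ComplexConjugate

namespace Pool.Agent.Y300.LC

open Pool.Agent.H709R2 (rot field)

/-- cyclicity at least `m` in degree `n` -/
def Cyc (n m : ℕ) (P₀ Q₀ : MvPolynomial (Fin 2) ℝ) (z₀ : ℝ × ℝ) : Prop :=
  ∀ U ∈ 𝓝 z₀, ∀ η : ℝ, 0 < η → ∃ P Q : MvPolynomial (Fin 2) ℝ,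
    P.totalDegree ≤ n ∧ Q.totalDegree ≤ n ∧
    (∀ d, |P.coeff d - P₀.coeff d| < η) ∧ (∀ d, |Q.coeff d - Q₀.coeff d| < η) ∧
    (m : ℕ∞) ≤ {C | C ∈ lC P Q ∧ C ⊆ U}.encard

lemma Lin.mono {N : ℕ} {p q : ℂ} {δ δ' : ℝ} {φ : ℂ → ℂ} (h : Lin N p q δ φ) (h0 : 0 < δ')
    (hδ : δ' ≤ δ) : Lin N p q δ' φ := by
  have hs : Metric.ball (0:ℂ) δ' ⊆ Metric.ball 0 δ := Metric.ball_subset_ball hδ
  exact ⟨h0, h.zero, h.diff.mono hs, h.inj.mono hs, fun w hw => h.der w (hs hw),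
    fun w hw => h.eq w (hs hw), fun k w hw => h.serB k w (hs hw), fun k w hw => h.serA k w (hs hw)⟩

lemma continuous_circ {f : ℂ → ℂ} {δ ρ : ℝ} (hf : ContinuousOn f (Metric.ball 0 δ)) (h0 : 0 < ρ)
    (h : ρ < δ) : Continuous fun θ : ℝ => f (ρ * Complex.exp (θ * Complex.I)) := by
  have e1 : Continuous fun θ : ℝ => (ρ : ℂ) * Complex.exp (θ * Complex.I) := by fun_prop
  refine hf.comp_continuous e1 fun θ => ?_
  rw [mem_ball_zero_iff, norm_mul, Complex.norm_exp_ofReal_mul_I, mul_one, Complex.norm_real,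
    Real.norm_eq_abs, abs_of_pos h0]
  exact h

theorem cyc_of {N : ℕ} (hN : 6 ≤ N) {p q : ℂ} {δ : ℝ} {φ : ℂ → ℂ} (hL : Lin N p q δ φ)
    (hbar : S_BAR) (hmel : S_MEL) (hreal : S_REAL)
    (hrk : N ^ 2 + 3 * N + 1 ≤ rk N p q (conj p) (conj q))
    {P₀ Q₀ : MvPolynomial (Fin 2) ℝ} (hP₀ : P₀.totalDegree ≤ N + 1) (hQ₀ : Q₀.totalDegree ≤ N + 1)
    (hf₀ : ∀ z, field P₀ Q₀ z = eC (G0 N p q (eC.symm z))) :
    Cyc (N + 1) (N ^ 2 + 3 * N) P₀ Q₀ 0 := by
  obtain ⟨n, hn⟩ : ∃ n, n = N ^ 2 + 3 * N := ⟨_, rfl⟩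
  rw [← hn] at hrk ⊢
  intro U hU η hη
  have hN2 : 2 ≤ N := by omega
  -- shrink the disc
  have hcont : ContinuousAt (fun w : ℂ => eC (φ w)) 0 :=
    ContinuousAt.comp (f := φ) (g := eC) eC.continuous.continuousAt
      ((hL.diff.continuousOn).continuousAt (Metric.ball_mem_nhds _ hL.pos))
  have h0 : eC (φ 0) = 0 := by rw [hL.zero, map_zero]
  have hpre : {w : ℂ | eC (φ w) ∈ U} ∈ 𝓝 (0:ℂ) := hcont (by
    change U ∈ 𝓝 (eC (φ 0))
    rw [h0]; exact hU)
  obtain ⟨δ₁, hδ₁, hball⟩ := Metric.mem_nhds_iff.1 hpre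
  set δ' := min δ δ₁ with hδ'
  have hδ0 : 0 < δ' := lt_min hL.pos hδ₁
  have hL' := hL.mono hδ0 (min_le_left _ _)
  have hsub : eC '' (φ '' Metric.ball 0 δ') ⊆ U := by
    rintro _ ⟨_, ⟨w, hw, rfl⟩, rfl⟩
    exact hball (Metric.ball_subset_ball (min_le_right _ _) hw)
  -- the real signs
  set v : J N → ℕ → ℂ := fun x m => vv N p q x.1.1 x.1.2 m with hv
  have hfam : Sum.elim v (fun i m => conj (v i m)) = fam N p q (conj p) (conj q) := by
    funext x
    rcases x with x | x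
    · funext m
      simp only [Sum.elim_inl, hv, vv, fam]
      rw [(hbar N x.1.2 m p q hN2).2]
    · funext m
      simp only [Sum.elim_inr, hv, vv, fam]
      rw [(hbar N x.1.1 m p q hN2).1, map_mul, Complex.conj_conj]
  obtain ⟨x, a, hx, hxδ, hsig⟩ := hreal (J N) v (δ' ^ 2) (n + 1) (by positivity)
    (by
      intro i y hy hyδ
      have hsq : (√y) ^ 2 = y := Real.sq_sqrt hy.le
      have h1 : 0 < √y := Real.sqrt_pos.2 hy
      have h2 : √y < δ' := by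
        rw [← Real.sqrt_sq hδ0.le]
        exact Real.sqrt_lt_sqrt hy.le hyδ
      have h3 := (hmel N p q δ' φ hN2 hL' i.1.1 i.1.2 (√y) h1 h2).1
      have h4 : ((√y : ℝ) : ℂ) ^ 2 = (y : ℂ) := by
        rw [← Complex.ofReal_pow, hsq]
      rw [h4] at h3
      exact h3)
    (by rw [hfam]; exact hrk)
  set ρ : ℕ → ℝ := fun k => if h : k < n + 1 then √(x ⟨k, h⟩) else 0 with hρ
  have hρe : ∀ k (h : k < n + 1), ρ k = √(x ⟨k, h⟩) := fun k h => by simp only [hρ, h, dif_pos]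
  have hρ1 : ∀ k ≤ n, 0 < ρ k ∧ ρ k < δ' := by
    intro k hk
    rw [hρe k (by omega)]
    have := hxδ ⟨k, by omega⟩
    refine ⟨Real.sqrt_pos.2 this.1, ?_⟩
    rw [← Real.sqrt_sq hδ0.le]
    exact Real.sqrt_lt_sqrt this.1.le this.2
  have hρ2 : ∀ k < n, ρ k < ρ (k + 1) := by
    intro k hk
    rw [hρe k (by omega), hρe (k + 1) (by omega)]
    refine Real.sqrt_lt_sqrt (hxδ _).1.le (hx ?_)
    exact Fin.mk_lt_mk.2 (by omega)
  set a' : ℕ × ℕ → ℂ := fun y => if h : y ∈ J N then a ⟨y, h⟩ else 0 with ha'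
  have ha'e : ∀ y (h : y ∈ J N), a' y = a ⟨y, h⟩ := fun y h => by simp only [ha', h, dif_pos]
  obtain ⟨P, Q, hP, hQ, hPc, hQc, hcard⟩ := dyn3 hL' a' (n := n) (ρ := ρ) hρ1 hρ2 (by
    intro k hk
    obtain ⟨h1, h2⟩ := hρ1 k hk
    have hc1 : ContinuousOn φ (Metric.ball 0 δ') := hL'.diff.continuousOn
    have hc2 : ContinuousOn (deriv φ) (Metric.ball 0 δ') :=
      (hL'.diff.deriv Metric.isOpen_ball).continuousOn
    have key : (∫ θ in (0:ℝ)..(2 * Real.pi), conj ((ρ k : ℂ) * Complex.exp (θ * Complex.I)) *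
        ff φ (gg N a') (ρ k * Complex.exp (θ * Complex.I))) =
        2 * Real.pi * (ρ k : ℂ) ^ 2 * ∑ i : J N, a i * ∑' m, v i m * ((x ⟨k, by omega⟩ : ℝ) : ℂ) ^ m := by
      have e1 : ∀ θ : ℝ, conj ((ρ k : ℂ) * Complex.exp (θ * Complex.I)) *
          ff φ (gg N a') (ρ k * Complex.exp (θ * Complex.I)) =
          ∑ i : J N, a i * (conj ((ρ k : ℂ) * Complex.exp (θ * Complex.I)) *
            (φ (ρ k * Complex.exp (θ * Complex.I)) ^ i.1.1 *
              conj (φ (ρ k * Complex.exp (θ * Complex.I))) ^ i.1.2 /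
              deriv φ (ρ k * Complex.exp (θ * Complex.I)))) := by
        intro θ
        unfold ff gg
        rw [← Finset.sum_coe_sort (J N), Finset.sum_div, Finset.mul_sum]
        refine Finset.sum_congr rfl fun i _ => ?_
        rw [ha'e i.1 i.2]
        ring
      simp only [e1]
      rw [intervalIntegral.integral_finsetSum]
      · rw [Finset.mul_sum]
        refine Finset.sum_congr rfl fun i _ => ?_
        rw [intervalIntegral.integral_const_mul,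
          (hmel N p q δ' φ hN2 hL' i.1.1 i.1.2 (ρ k) h1 h2).2]
        have h4 : ((ρ k : ℝ) : ℂ) ^ 2 = ((x ⟨k, by omega⟩ : ℝ) : ℂ) := by
          rw [← Complex.ofReal_pow, hρe k (by omega), Real.sq_sqrt (hxδ _).1.le]
        rw [h4]
        ring
      · intro i _
        refine Continuous.intervalIntegrable ?_ _ _
        refine continuous_const.mul ?_
        have e2 : Continuous fun θ : ℝ => (ρ k : ℂ) * Complex.exp (θ * Complex.I) := by fun_prop
        refine (Complex.continuous_conj.comp e2).mul ?_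
        have c1 := continuous_circ hc1 h1 h2
        have c2 := continuous_circ hc2 h1 h2
        refine ((c1.pow _).mul ((Complex.continuous_conj.comp c1).pow _)).div c2 fun θ => ?_
        refine hL'.der _ ?_
        rw [mem_ball_zero_iff, norm_mul, Complex.norm_exp_ofReal_mul_I, mul_one, Complex.norm_real,
          Real.norm_eq_abs, abs_of_pos h1]
        exact h2
    rw [key]
    have h5 := hsig ⟨k, by omega⟩
    have h6 : (2 * Real.pi * (ρ k : ℂ) ^ 2 *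
        ∑ i : J N, a i * ∑' m, v i m * ((x ⟨k, by omega⟩ : ℝ) : ℂ) ^ m).re =
        2 * Real.pi * ρ k ^ 2 * (-1) ^ k := by
      have e3 : (2 * Real.pi * (ρ k : ℂ) ^ 2 : ℂ) = ((2 * Real.pi * ρ k ^ 2 : ℝ) : ℂ) := by
        push_cast; ring
      rw [e3, Complex.re_ofReal_mul, h5]
    rw [h6]
    have h7 : ((-1 : ℝ) ^ k) * (2 * Real.pi * ρ k ^ 2 * (-1) ^ k) = 2 * Real.pi * ρ k ^ 2 := by
      have : ((-1 : ℝ) ^ k) * (-1) ^ k = 1 := by
        rw [← mul_pow]; norm_num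
      linear_combination (2 * Real.pi * ρ k ^ 2) * this
    rw [h7]
    have := Real.pi_pos
    positivity) hP₀ hQ₀ hf₀ hη
  refine ⟨P, Q, hP, hQ, hPc, hQc, hcard.trans (Set.encard_le_encard ?_)⟩
  rintro C ⟨h1, h2⟩
  exact ⟨h1, h2.trans hsub⟩

end Pool.Agent.Y300.LC
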