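import Pool.Agent.Y300.LC.Alg
import Pool.Agent.Y458.LC.Pars

/-! Project LC (helper300): final assembly. -/

set_option autoImplicit false

open Filter Topology
open scoped ComplexConjugate

namespace Pool.Agent.Y300.LC

theorem mel_done : S_MEL :=
  Pool.Agent.Y458.LC.mel_all sol_done rel_done Pool.Agent.Y458.LC.pars_all

theorem top (n : ℕ) (hn : 7 ≤ n) : ∃ (p q : ℂ) (P₀ Q₀ : MvPolynomial (Fin 2) ℝ), q ≠ 0 ∧
      (∀ x y : ℝ, ((MvPolynomial.eval ![x, y] P₀ : ℝ) : ℂ) +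
          ((MvPolynomial.eval ![x, y] Q₀ : ℝ) : ℂ) * Complex.I =
        Complex.I * ((x + y * Complex.I) + p * (x + y * Complex.I) ^ (n - 1) +
          q * (x + y * Complex.I) ^ n)) ∧
      max P₀.totalDegree Q₀.totalDegree = n ∧
      ((MvPolynomial.eval ![0, 0] P₀ = 0 ∧ MvPolynomial.eval ![0, 0] Q₀ = 0) ∧
        MvPolynomial.eval ![0, 0] (MvPolynomial.pderiv 0 P₀) = 0 ∧
        MvPolynomial.eval ![0, 0] (MvPolynomial.pderiv 1 P₀) = -1 ∧
        MvPolynomial.eval ![0, 0] (MvPolynomial.pderiv 0 Q₀) = 1 ∧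
        MvPolynomial.eval ![0, 0] (MvPolynomial.pderiv 1 Q₀) = 0) ∧
      Cyc n (n ^ 2 + n - 2) P₀ Q₀ (0, 0) :=
  top_of conj_done ana_done bar_done mel_done real_done n hn

end Pool.Agent.Y300.LC
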