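import Pool.Agent.Y300.LC.Deg
import Pool.Agent.Y300.LC.Core

/-! Assembly from the statements. -/

set_option autoImplicit false

open Set MeasureTheory Topology Filter
open scoped NNReal ComplexConjugate

namespace Pool.Agent.Y300.LC

open Pool.Agent.H709R2 (rot field)

theorem top_of (hconj : S_CONJ) (hana : S_ANA) (hbar : S_BAR) (hmel : S_MEL) (hreal : S_REAL)
    (n : ℕ) (hn : 7 ≤ n) : ∃ (p q : ℂ) (P₀ Q₀ : MvPolynomial (Fin 2) ℝ), q ≠ 0 ∧
      (∀ x y : ℝ, ((MvPolynomial.eval ![x, y] P₀ : ℝ) : ℂ) +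
          ((MvPolynomial.eval ![x, y] Q₀ : ℝ) : ℂ) * Complex.I =
        Complex.I * ((x + y * Complex.I) + p * (x + y * Complex.I) ^ (n - 1) +
          q * (x + y * Complex.I) ^ n)) ∧
      max P₀.totalDegree Q₀.totalDegree = n ∧
      ((MvPolynomial.eval ![0, 0] P₀ = 0 ∧ MvPolynomial.eval ![0, 0] Q₀ = 0) ∧
        MvPolynomial.eval ![0, 0] (MvPolynomial.pderiv 0 P₀) = 0 ∧
        MvPolynomial.eval ![0, 0] (MvPolynomial.pderiv 1 P₀) = -1 ∧
        MvPolynomial.eval ![0, 0] (MvPolynomial.pderiv 0 Q₀) = 1 ∧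
        MvPolynomial.eval ![0, 0] (MvPolynomial.pderiv 1 Q₀) = 0) ∧
      Cyc n (n ^ 2 + n - 2) P₀ Q₀ (0, 0) := by
  obtain ⟨N, rfl⟩ : ∃ N, n = N + 1 := ⟨n - 1, by omega⟩
  have hN : 6 ≤ N := by omega
  have hN2 : 2 ≤ N := by omega
  obtain ⟨p, q, hq, hrk⟩ := hconj N hN
  obtain ⟨δ, φ, hL⟩ := hana N p q hN2
  obtain ⟨P₀, Q₀, hP, hQ, hf⟩ := isPoly_G0 (N := N) p q
  refine ⟨p, q, P₀, Q₀, hq, ?_, max_degree hN2 hq hP hQ hf, linear_part hN2 hf, ?_⟩
  · intro x y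
    have h1 := hf (x, y)
    rw [eC_apply] at h1
    simp only [H709R2.field, Prod.mk.injEq] at h1
    rw [h1.1, h1.2, Complex.re_add_im]
    unfold G0
    have h2 : eC.symm ((x, y) : ℝ × ℝ) = x + y * Complex.I := by
      apply Complex.ext
      · rw [eC_symm_re]; simp
      · rw [eC_symm_im]; simp
    rw [h2, Nat.add_sub_cancel]
  · have h3 : (N + 1) ^ 2 + (N + 1) - 2 = N ^ 2 + 3 * N := by
      have : (N + 1) ^ 2 + (N + 1) = N ^ 2 + 3 * N + 2 := by ring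
      omega
    rw [h3]
    exact cyc_of hN hL hbar hmel hreal hrk hP hQ hf

end Pool.Agent.Y300.LC
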